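import Mathlib

/-!
# `∨`-systems, their matroids and `ν`-functions

`V` is a finite dimensional real vector space (the norm is only used to speak of the topology of
`V^*`), `V^* = StrongDual ℝ V`.
-/

open Submodule
open scoped Topology

namespace Pool.Agent.Lib.MP_44d68a_mp

variable {V : Type*} [NormedAddCommGroup V] [NormedSpace ℝ V]
variable {E : Type*} [Fintype E]

/-- The canonical form `G_A(x, y) = ∑_{α ∈ A} α(x) α(y)`. -/
noncomputable def canForm (A : Finset (StrongDual ℝ V)) (x y : V) : ℝ := ∑ α ∈ A, α x * α y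

/-- `v` is the vector `α^∨` dual to `α`: `G_A(v, x) = α(x)` for all `x`. -/
def IsVee (A : Finset (StrongDual ℝ V)) (α : StrongDual ℝ V) (v : V) : Prop :=
  ∀ x, canForm A v x = α x

/-- The vector `α^∨`. -/
noncomputable def vee (A : Finset (StrongDual ℝ V)) (α : StrongDual ℝ V) : V :=
  Classical.epsilon (IsVee A α)

open Classical in
/-- The `∨`-condition for `α` and the plane `P` with the number `ν`:
`∑_{β ∈ P ∩ A} β(α^∨) β^∨ = ν α^∨`. -/
def VeeEq (A : Finset (StrongDual ℝ V)) (P : Submodule ℝ (StrongDual ℝ V))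
    (α : StrongDual ℝ V) (ν : ℝ) : Prop :=
  ∑ β ∈ A with β ∈ P, β (vee A α) • vee A β = ν • vee A α

/-- `A` is a `∨`-system: a finite set of nonzero covectors spanning `V^*` such that for every
`α ∈ A` and every two-dimensional subspace `P` containing `α` the `∨`-condition holds for some
`ν`. -/
structure IsVeeSystem (A : Finset (StrongDual ℝ V)) : Prop where
  ne_zero : ∀ α ∈ A, α ≠ 0
  span_eq_top : span ℝ (A : Set (StrongDual ℝ V)) = ⊤
  exists_nu : ∀ α ∈ A, ∀ P : Submodule ℝ (StrongDual ℝ V), Module.finrank ℝ P = 2 → α ∈ P →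
    ∃ ν : ℝ, VeeEq A P α ν

/-- `ν_A(P)`: the common value of `ν` for all `α ∈ P ∩ A`. -/
noncomputable def nu (A : Finset (StrongDual ℝ V)) (P : Submodule ℝ (StrongDual ℝ V)) : ℝ :=
  Classical.epsilon (fun ν : ℝ => ∀ α ∈ A, α ∈ P → VeeEq A P α ν)

open Classical in
/-- The image of a labelled family. -/
noncomputable def img (a : E → StrongDual ℝ V) : Finset (StrongDual ℝ V) := Finset.univ.image a

/-- A labelled `∨`-system: an injective family whose image is a `∨`-system. -/
structure IsLabelled (a : E → StrongDual ℝ V) : Prop where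
  inj : Function.Injective a
  sys : IsVeeSystem (img a)

/-- The two families induce the same matroid on `E`. -/
def SameMatroid (a b : E → StrongDual ℝ V) : Prop :=
  ∀ I : Set E, LinearIndepOn ℝ a I ↔ LinearIndepOn ℝ b I

/-- `F ⊆ E` is a `2`-flat of the matroid of `a`. -/
def IsTwoFlat (a : E → StrongDual ℝ V) (F : Finset E) : Prop :=
  Module.finrank ℝ (span ℝ (a '' F)) = 2 ∧ ∀ e, a e ∈ span ℝ (a '' F) → e ∈ F

/-- The two families have the same value of `ν` on every `2`-flat of size at least `3`. -/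
def SameNu (a b : E → StrongDual ℝ V) : Prop :=
  ∀ F : Finset E, IsTwoFlat a F → 3 ≤ F.card →
    nu (img b) (span ℝ (b '' F)) = nu (img a) (span ℝ (a '' F))

/-- The matroid of `a` is connected: the family is not a disjoint union of two nonempty parts whose
spans meet only in `0`. -/
def Irreducible (a : E → StrongDual ℝ V) : Prop :=
  ¬ ∃ S : Set E, S.Nonempty ∧ Sᶜ.Nonempty ∧ span ℝ (a '' S) ⊓ span ℝ (a '' Sᶜ) = ⊥

/-- `a` is locally determined by its matroid and `ν`-function. -/
def LocallyDetermined (a : E → StrongDual ℝ V) : Prop :=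
  ∃ U ∈ 𝓝 a, ∀ b ∈ U, IsLabelled b → SameMatroid a b → SameNu a b →
    ∃ g : StrongDual ℝ V ≃ₗ[ℝ] StrongDual ℝ V, ∀ e, b e = g (a e)

/-- No two different members of the family are collinear. -/
def NoncollinearFamily (a : E → StrongDual ℝ V) : Prop :=
  ∀ e f, e ≠ f → ∀ c : ℝ, a f ≠ c • a e

end Pool.Agent.Lib.MP_44d68a_mp
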