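import Mathlib

/-!
A Kelly-type argument: in a finite set of points of a real inner product space which contains four
collinear points and a point off their line, some point lies on two distinct connecting lines each
containing at most three of the points.
-/

open scoped RealInnerProductSpace

namespace Pool.Agent.Lib.MP_44d68a_mp

variable {P : Type*} [NormedAddCommGroup P] [InnerProductSpace ℝ P] {ι : Type*}

/-- The point `p c` lies on the line through `p a` and `p b`. -/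
def OnLine (p : ι → P) (a b c : ι) : Prop := ∃ t : ℝ, p c = p a + t • (p b - p a)

lemma four_reals {κ : Type*} (C : Finset κ) (s : κ → ℝ) (hs : Set.InjOn s C) (h4 : 4 ≤ C.card) :
    ∃ i ∈ C, ∃ j ∈ C, i ≠ j ∧ (∃ k ∈ C, 0 ≤ s k * s i ∧ |s k| < |s i|) ∧
      (∃ k ∈ C, 0 ≤ s k * s j ∧ |s k| < |s j|) := by
  classical
  set T := C.image s with hT
  have hcard : T.card = C.card := Finset.card_image_of_injOn hs
  have h4' : 4 ≤ T.card := by omega
  let g := T.orderEmbOfFin rfl
  have hmem : ∀ i, g i ∈ T := fun i => Finset.orderEmbOfFin_mem T rfl i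
  have key : ∀ i, ∃ c ∈ C, s c = g i := fun i => Finset.mem_image.mp (hmem i)
  obtain ⟨c0, hc0, e0⟩ := key ⟨0, by omega⟩
  obtain ⟨c1, hc1, e1⟩ := key ⟨1, by omega⟩
  obtain ⟨c2, hc2, e2⟩ := key ⟨2, by omega⟩
  obtain ⟨c3, hc3, e3⟩ := key ⟨3, by omega⟩
  have l01 : s c0 < s c1 := by
    rw [e0, e1]; exact g.strictMono (by simp [Fin.lt_def])
  have l12 : s c1 < s c2 := by
    rw [e1, e2]; exact g.strictMono (by simp [Fin.lt_def])
  have l23 : s c2 < s c3 := by
    rw [e2, e3]; exact g.strictMono (by simp [Fin.lt_def])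
  by_cases h1 : 0 < s c1
  · refine ⟨c2, hc2, c3, hc3, fun h => by rw [h] at l23; exact lt_irrefl _ l23, ⟨c1, hc1, ?_, ?_⟩,
      ⟨c1, hc1, ?_, ?_⟩⟩
    · exact mul_nonneg h1.le (by linarith)
    · rw [abs_of_pos h1, abs_of_pos (by linarith)]; exact l12
    · exact mul_nonneg h1.le (by linarith)
    · rw [abs_of_pos h1, abs_of_pos (by linarith)]; linarith
  · push Not at h1
    by_cases h2 : s c2 < 0
    · refine ⟨c0, hc0, c1, hc1, fun h => by rw [h] at l01; exact lt_irrefl _ l01,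
        ⟨c2, hc2, ?_, ?_⟩, ⟨c2, hc2, ?_, ?_⟩⟩
      · exact mul_nonneg_of_nonpos_of_nonpos h2.le (by linarith)
      · rw [abs_of_neg h2, abs_of_neg (by linarith)]; linarith
      · exact mul_nonneg_of_nonpos_of_nonpos h2.le (by linarith)
      · rw [abs_of_neg h2, abs_of_neg (by linarith)]; linarith
    · push Not at h2
      refine ⟨c0, hc0, c3, hc3, fun h => by
        rw [h] at l01; linarith, ⟨c1, hc1, ?_, ?_⟩, ⟨c2, hc2, ?_, ?_⟩⟩
      · exact mul_nonneg_of_nonpos_of_nonpos h1 (by linarith)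
      · rw [abs_of_nonpos h1, abs_of_neg (by linarith)]; linarith
      · exact mul_nonneg h2 (by linarith)
      · rw [abs_of_nonneg h2, abs_of_pos (by linarith)]; linarith

/-- Squared distance of `x` from the line through `a` in direction `b - a`. -/
noncomputable def lineDist (x a b : P) : ℝ :=
  ‖x - a‖ ^ 2 - ⟪x - a, b - a⟫ ^ 2 / ‖b - a‖ ^ 2

lemma kelly_step (h u w : P) (hw : w ≠ 0) (hu : u ≠ 0) (huw : ⟪u, w⟫ = 0) (sk si : ℝ)
    (h2 : |sk| < |si|) : 0 < lineDist (h + sk • u) (h + w) (h + si • u) := by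
  have hsk : sk ^ 2 < si ^ 2 := sq_lt_sq.mpr h2
  have hne : sk ≠ si := fun h => by rw [h] at h2; exact lt_irrefl _ h2
  have e1 : h + sk • u - (h + w) = sk • u - w := by abel
  have e2 : h + si • u - (h + w) = si • u - w := by abel
  have hwu : ⟪w, u⟫ = 0 := by rw [real_inner_comm]; exact huw
  have hU : 0 < ‖u‖ ^ 2 := by positivity
  have hW : 0 < ‖w‖ ^ 2 := by positivity
  have n1 : ‖sk • u - w‖ ^ 2 = sk ^ 2 * ‖u‖ ^ 2 + ‖w‖ ^ 2 := by
    rw [norm_sub_sq_real, inner_smul_left, huw, norm_smul, mul_pow]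
    simp
  have n2 : ‖si • u - w‖ ^ 2 = si ^ 2 * ‖u‖ ^ 2 + ‖w‖ ^ 2 := by
    rw [norm_sub_sq_real, inner_smul_left, huw, norm_smul, mul_pow]
    simp
  have n3 : ⟪sk • u - w, si • u - w⟫ = sk * si * ‖u‖ ^ 2 + ‖w‖ ^ 2 := by
    rw [inner_sub_left, inner_sub_right, inner_sub_right, inner_smul_left, inner_smul_right,
      inner_smul_left, inner_smul_right, huw, hwu, real_inner_self_eq_norm_sq,
      real_inner_self_eq_norm_sq]
    simp
    ring
  unfold lineDist
  rw [e1, e2, n1, n2, n3]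
  have hpos : 0 < si ^ 2 * ‖u‖ ^ 2 + ‖w‖ ^ 2 := by positivity
  rw [sub_pos, div_lt_iff₀ hpos]
  have : 0 < ‖u‖ ^ 2 * ‖w‖ ^ 2 * (sk - si) ^ 2 := by
    have : sk - si ≠ 0 := sub_ne_zero.mpr hne
    positivity
  nlinarith

lemma kelly_step_lt (h u w : P) (hw : w ≠ 0) (huw : ⟪u, w⟫ = 0) (sk si : ℝ)
    (h1 : 0 ≤ sk * si) (h2 : |sk| < |si|) :
    lineDist (h + sk • u) (h + w) (h + si • u) < ‖w‖ ^ 2 := by
  have hsk : sk ^ 2 < si ^ 2 := sq_lt_sq.mpr h2
  have e1 : h + sk • u - (h + w) = sk • u - w := by abel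
  have e2 : h + si • u - (h + w) = si • u - w := by abel
  have hwu : ⟪w, u⟫ = 0 := by rw [real_inner_comm]; exact huw
  have hU : 0 ≤ ‖u‖ ^ 2 := by positivity
  have hW : 0 < ‖w‖ ^ 2 := by positivity
  have n1 : ‖sk • u - w‖ ^ 2 = sk ^ 2 * ‖u‖ ^ 2 + ‖w‖ ^ 2 := by
    rw [norm_sub_sq_real, inner_smul_left, huw, norm_smul, mul_pow]
    simp
  have n2 : ‖si • u - w‖ ^ 2 = si ^ 2 * ‖u‖ ^ 2 + ‖w‖ ^ 2 := by
    rw [norm_sub_sq_real, inner_smul_left, huw, norm_smul, mul_pow]
    simp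
  have n3 : ⟪sk • u - w, si • u - w⟫ = sk * si * ‖u‖ ^ 2 + ‖w‖ ^ 2 := by
    rw [inner_sub_left, inner_sub_right, inner_sub_right, inner_smul_left, inner_smul_right,
      inner_smul_left, inner_smul_right, huw, hwu, real_inner_self_eq_norm_sq,
      real_inner_self_eq_norm_sq]
    simp
    ring
  unfold lineDist
  rw [e1, e2, n1, n2, n3]
  have hpos : 0 < si ^ 2 * ‖u‖ ^ 2 + ‖w‖ ^ 2 := by positivity
  rw [sub_lt_iff_lt_add, ← sub_lt_iff_lt_add', lt_div_iff₀ hpos]
  -- `sk² U (si² U + W) < (sk si U + W)²`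
  have hss : sk ^ 2 ≤ sk * si := by
    have : |sk| * |sk| ≤ |sk| * |si| := mul_le_mul_of_nonneg_left h2.le (abs_nonneg _)
    rw [← abs_mul, ← abs_mul, abs_of_nonneg h1, abs_mul_self] at this
    nlinarith
  have h3 : 0 ≤ ‖u‖ ^ 2 * ‖w‖ ^ 2 * (2 * (sk * si) - sk ^ 2) := by
    have : 0 ≤ 2 * (sk * si) - sk ^ 2 := by linarith
    positivity
  nlinarith

/-- **Kelly-type lemma.** -/
theorem kelly (p : ι → P) (X : Finset ι) (hinj : Set.InjOn p X)
    [∀ a b, DecidablePred (OnLine p a b)]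
    (x₀ a₀ b₀ : ι) (hx₀ : x₀ ∈ X) (ha₀ : a₀ ∈ X) (hb₀ : b₀ ∈ X) (hab₀ : a₀ ≠ b₀)
    (hoff : ¬ OnLine p a₀ b₀ x₀) (hbig : 4 ≤ (X.filter (OnLine p a₀ b₀)).card) :
    ∃ x ∈ X, ∃ b ∈ X, ∃ b' ∈ X, x ≠ b ∧ x ≠ b' ∧ ¬ OnLine p x b b' ∧
      (X.filter (OnLine p x b)).card ≤ 3 ∧ (X.filter (OnLine p x b')).card ≤ 3 := by
  classical
  set T : Finset (ι × ι × ι) := (X ×ˢ X ×ˢ X).filter (fun q => q.2.1 ≠ q.2.2 ∧
    ¬ OnLine p q.2.1 q.2.2 q.1 ∧ 4 ≤ (X.filter (OnLine p q.2.1 q.2.2)).card) with hT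
  have hTne : T.Nonempty := ⟨(x₀, a₀, b₀), by
    simp only [hT, Finset.mem_filter, Finset.mem_product]
    exact ⟨⟨hx₀, ha₀, hb₀⟩, hab₀, hoff, hbig⟩⟩
  obtain ⟨⟨x, a, b⟩, hq, hmin⟩ := T.exists_min_image
    (fun q => lineDist (p q.1) (p q.2.1) (p q.2.2)) hTne
  simp only [hT, Finset.mem_filter, Finset.mem_product] at hq
  obtain ⟨⟨hx, ha, hb⟩, hab, hxoff, hcard⟩ := hq
  set u := p b - p a with hu
  have hu0 : u ≠ 0 := by
    intro h
    apply hab
    exact (hinj hb ha (sub_eq_zero.mp h)).symm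
  have hU : 0 < ‖u‖ ^ 2 := by positivity
  set τ : ℝ := ⟪p x - p a, u⟫ / ‖u‖ ^ 2 with hτ
  set h : P := p a + τ • u with hh
  set w : P := p x - h with hw
  have huw : ⟪u, w⟫ = 0 := by
    have e : w = (p x - p a) - τ • u := by rw [hw, hh]; abel
    rw [e, inner_sub_right, inner_smul_right, real_inner_self_eq_norm_sq, hτ,
      real_inner_comm u (p x - p a)]
    field_simp
    ring
  have hw0 : w ≠ 0 := by
    intro h0
    apply hxoff
    refine ⟨τ, ?_⟩
    have : p x = h := sub_eq_zero.mp h0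
    rw [this]
  have hpx : p x = h + w := by rw [hw]; abel
  have hdist : lineDist (p x) (p a) (p b) = ‖w‖ ^ 2 := by
    unfold lineDist
    have e : p x - p a = w + τ • u := by rw [hw, hh]; abel
    have hwu : ⟪w, u⟫ = 0 := by rw [real_inner_comm]; exact huw
    rw [← hu, e, norm_add_sq_real, inner_smul_right, hwu, norm_smul, inner_add_left,
      inner_smul_left, hwu, real_inner_self_eq_norm_sq, mul_pow]
    simp
    field_simp
    ring
  -- parameters on the line
  set C := X.filter (OnLine p a b) with hC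
  have hs : ∀ c ∈ C, ∃ s : ℝ, p c = h + s • u := by
    intro c hc
    obtain ⟨t, ht⟩ := (Finset.mem_filter.mp hc).2
    refine ⟨t - τ, ?_⟩
    rw [ht, hh, sub_smul]
    abel
  choose! s hs using hs
  have hsinj : Set.InjOn s C := by
    intro c hc c' hc' hcc
    apply hinj (Finset.mem_filter.mp hc).1 (Finset.mem_filter.mp hc').1
    rw [hs c hc, hs c' hc', hcc]
  obtain ⟨i, hi, j, hj, hij, ⟨k, hk, hk1, hk2⟩, ⟨l, hl, hl1, hl2⟩⟩ := four_reals C s hsinj hcard
  -- a line `x i` with a witness on the same side is small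
  have hsmall : ∀ i ∈ C, ∀ k ∈ C, 0 ≤ s k * s i → |s k| < |s i| →
      (X.filter (OnLine p x i)).card ≤ 3 := by
    intro i hi k hk h1 h2
    by_contra hcon
    push Not at hcon
    have hiX := (Finset.mem_filter.mp hi).1
    have hkX := (Finset.mem_filter.mp hk).1
    have hxi : x ≠ i := by
      rintro rfl
      exact hxoff (Finset.mem_filter.mp hi).2
    have hpos : 0 < lineDist (p k) (p x) (p i) := by
      rw [hs k hk, hs i hi, hpx]
      exact kelly_step h u w hw0 hu0 huw (s k) (s i) h2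
    have hkoff : ¬ OnLine p x i k := by
      rintro ⟨t, ht⟩
      have hne : p i - p x ≠ 0 := fun h0 => hxi (hinj hx hiX (sub_eq_zero.mp h0).symm)
      have : lineDist (p k) (p x) (p i) = 0 := by
        unfold lineDist
        have e : p k - p x = t • (p i - p x) := by rw [ht]; abel
        rw [e, inner_smul_left, real_inner_self_eq_norm_sq, norm_smul]
        have : 0 < ‖p i - p x‖ ^ 2 := by positivity
        simp
        field_simp
        rw [sq_abs]
        ring
      linarith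
    have hmem : (k, x, i) ∈ T := by
      simp only [hT, Finset.mem_filter, Finset.mem_product]
      exact ⟨⟨hkX, hx, hiX⟩, hxi, hkoff, hcon⟩
    have := hmin _ hmem
    simp only at this
    rw [hdist, hs k hk, hs i hi, hpx] at this
    have h5 := kelly_step_lt h u w hw0 huw (s k) (s i) h1 h2
    linarith
  refine ⟨x, hx, i, (Finset.mem_filter.mp hi).1, j, (Finset.mem_filter.mp hj).1, ?_, ?_, ?_,
    hsmall i hi k hk hk1 hk2, hsmall j hj l hl hl1 hl2⟩
  · rintro rfl
    exact hxoff (Finset.mem_filter.mp hi).2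
  · rintro rfl
    exact hxoff (Finset.mem_filter.mp hj).2
  · rintro ⟨t, ht⟩
    rw [hs i hi, hs j hj, hpx] at ht
    have e : (s j - t * s i) • u = (1 - t) • w := by
      have : h + s j • u - (h + w + t • (h + s i • u - (h + w))) = 0 := sub_eq_zero.mpr ht
      have e2 : h + s j • u - (h + w + t • (h + s i • u - (h + w))) =
          (s j - t * s i) • u - (1 - t) • w := by
        module
      rw [e2] at this
      exact sub_eq_zero.mp this
    have h6 : ⟪(s j - t * s i) • u, w⟫ = ⟪(1 - t) • w, w⟫ := by rw [e]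
    rw [inner_smul_left, huw, inner_smul_left, real_inner_self_eq_norm_sq] at h6
    have hW : 0 < ‖w‖ ^ 2 := by positivity
    have ht1 : 1 - t = 0 := by
      simp at h6
      rcases h6 with h6 | h6
      · exact h6
      · exact absurd h6 hw0
    rw [ht1, zero_smul] at e
    have h7 : s j - t * s i = 0 := by
      rcases smul_eq_zero.mp e with h8 | h8
      · exact h8
      · exact absurd h8 hu0
    have : s i = s j := by
      have : t = 1 := by linarith
      rw [this] at h7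
      linarith
    exact hij (hsinj hi hj this)

end Pool.Agent.Lib.MP_44d68a_mp
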