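import Mathlib
import Pool.Agent.Lib.MP_44d68a_mp.Kelly

/-!
Infinitesimal rigidity of a normalised configuration of vectors.
-/

open scoped RealInnerProductSpace
open Submodule

namespace Pool.Agent.Lib.MP_44d68a_mp

variable {W : Type*} [NormedAddCommGroup W] [InnerProductSpace ℝ W]
variable {E : Type*} [Fintype E] [DecidableEq E]

open Classical in
/-- indices of the vectors in the plane spanned by `α e` and `α f` -/
noncomputable def Ln (α : E → W) (e f : E) : Finset E :=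
  Finset.univ.filter (fun g => α g ∈ span ℝ {α e, α f})

lemma mem_Ln {α : E → W} {e f g : E} : g ∈ Ln α e f ↔ α g ∈ span ℝ {α e, α f} := by
  simp [Ln]

lemma left_mem_Ln (α : E → W) (e f : E) : e ∈ Ln α e f :=
  mem_Ln.mpr (subset_span (by simp))

lemma right_mem_Ln (α : E → W) (e f : E) : f ∈ Ln α e f :=
  mem_Ln.mpr (subset_span (by simp))

lemma Ln_comm (α : E → W) (e f : E) : Ln α e f = Ln α f e := by
  ext g
  rw [mem_Ln, mem_Ln, Set.pair_comm]

omit [Fintype E] [DecidableEq E] in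
lemma finrank_span_pair {x y : W} (h : LinearIndependent ℝ ![x, y]) :
    Module.finrank ℝ (span ℝ {x, y}) = 2 := by
  have := finrank_span_eq_card h
  rwa [Matrix.range_cons_cons_empty x y _] at this

lemma finrank_span_pair_le (x y : W) : Module.finrank ℝ (span ℝ {x, y}) ≤ 2 := by
  classical
  have h := finrank_span_finset_le_card (R := ℝ) ({x, y} : Finset W)
  rw [Set.finrank, Finset.coe_insert, Finset.coe_singleton] at h
  exact h.trans Finset.card_le_two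

lemma span_pair_eq {x y z w : W} (h : LinearIndependent ℝ ![z, w])
    (hz : z ∈ span ℝ {x, y}) (hw : w ∈ span ℝ {x, y}) : span ℝ {z, w} = span ℝ {x, y} := by
  have hfd : FiniteDimensional ℝ (span ℝ ({x, y} : Set W)) :=
    FiniteDimensional.span_of_finite ℝ (by simp)
  apply Submodule.eq_of_le_of_finrank_le
  · rw [span_le]
    intro v hv
    simp only [Set.mem_insert_iff, Set.mem_singleton_iff] at hv
    rcases hv with rfl | rfl
    · exact hz
    · exact hw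
  · rw [finrank_span_pair h]
    exact finrank_span_pair_le x y

lemma Ln_eq {α : E → W} (indep : ∀ e f, e ≠ f → LinearIndependent ℝ ![α e, α f])
    {e f h k : E} (hh : h ∈ Ln α e f) (hk : k ∈ Ln α e f) (hne : h ≠ k) :
    Ln α h k = Ln α e f := by
  ext g
  rw [mem_Ln, mem_Ln, span_pair_eq (indep h k hne) (mem_Ln.mp hh) (mem_Ln.mp hk)]

/-- the set of planes -/
noncomputable def planes (α : E → W) : Finset (Finset E) :=
  (Finset.univ : Finset E).offDiag.image (fun p => Ln α p.1 p.2)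

/-- the sum over ordered pairs splits over the planes -/
lemma sum_flats {α : E → W} (indep : ∀ e f, e ≠ f → LinearIndependent ℝ ![α e, α f])
    (q : E × E → ℝ) :
    ∑ F ∈ planes α, ∑ p ∈ F.offDiag, q p = ∑ p ∈ (Finset.univ : Finset E).offDiag, q p := by
  have h1 : ∑ F ∈ planes α, ∑ p ∈ (Finset.univ : Finset E).offDiag.filter
      (fun p => Ln α p.1 p.2 = F), q p = ∑ p ∈ (Finset.univ : Finset E).offDiag, q p :=
    Finset.sum_fiberwise_of_maps_to (fun p hp => Finset.mem_image_of_mem _ hp) q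
  rw [← h1]
  refine Finset.sum_congr rfl fun F hF => Finset.sum_congr ?_ fun _ _ => rfl
  obtain ⟨⟨e, f⟩, hef, rfl⟩ := Finset.mem_image.mp hF
  ext ⟨h, k⟩
  simp only [Finset.mem_offDiag, Finset.mem_filter, Finset.mem_univ, true_and]
  constructor
  · rintro ⟨hh, hk, hne⟩
    exact ⟨hne, Ln_eq indep hh hk hne⟩
  · rintro ⟨hne, heq⟩
    refine ⟨?_, ?_, hne⟩
    · rw [← heq]; exact left_mem_Ln α h k
    · rw [← heq]; exact right_mem_Ln α h k

section rigid

variable (α : E → W) (ν : Finset E → ℝ) (D : E → E → ℝ)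

/-- the velocity vectors -/
noncomputable def vel (α : E → W) (D : E → E → ℝ) (e : E) : W := ∑ g, D e g • α g

lemma inner_vel (e : E) (x : W) : ⟪vel α D e, x⟫ = ∑ g, D e g * ⟪α g, x⟫ := by
  rw [vel, sum_inner]
  exact Finset.sum_congr rfl fun g _ => by rw [real_inner_smul_left]

variable {α ν D}

lemma D_eq (Dsymm : ∀ e f, D e f = D f e)
    (Dfull : ∀ e f, D e f = ∑ g, (⟪α e, α g⟫ * D g f + D e g * ⟪α g, α f⟫)) (e f : E) :
    D e f = ⟪vel α D f, α e⟫ + ⟪vel α D e, α f⟫ := by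
  rw [inner_vel, inner_vel, Dfull e f, Finset.sum_add_distrib]
  congr 1
  exact Finset.sum_congr rfl fun g _ => by rw [Dsymm f g, real_inner_comm (α e) (α g), mul_comm]

lemma total_zero (frame : ∀ e, ∑ f, ⟪α f, α e⟫ • α f = α e)
    (Dsymm : ∀ e f, D e f = D f e)
    (Dfull : ∀ e f, D e f = ∑ g, (⟪α e, α g⟫ * D g f + D e g * ⟪α g, α f⟫)) :
    ∑ e, ∑ f, (⟪vel α D e, α f⟫ ^ 2 - 1 / 2 * D e f ^ 2) = 0 := by
  have hD := D_eq Dsymm Dfull
  -- ‖β e‖² computed in two ways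
  have h1 : ∀ e, ∑ f, ⟪vel α D e, α f⟫ ^ 2 = ∑ f, D e f * ⟪vel α D e, α f⟫ := by
    intro e
    have hfr : ∑ f, ⟪α f, vel α D e⟫ • α f = vel α D e := by
      have : ∀ f, ⟪α f, vel α D e⟫ = ∑ g, D e g * ⟪α f, α g⟫ := by
        intro f
        rw [real_inner_comm, inner_vel]
        exact Finset.sum_congr rfl fun g _ => by rw [real_inner_comm]
      simp only [this, Finset.sum_smul]
      rw [Finset.sum_comm]
      conv_rhs => rw [vel]
      refine Finset.sum_congr rfl fun g _ => ?_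
      rw [← frame g, Finset.smul_sum]
      exact Finset.sum_congr rfl fun f _ => by rw [frame g, mul_smul]
    have e1 : ⟪vel α D e, vel α D e⟫ = ∑ f, ⟪vel α D e, α f⟫ ^ 2 := by
      conv_lhs => rw [← hfr]
      rw [sum_inner]
      refine Finset.sum_congr rfl fun f _ => ?_
      rw [real_inner_smul_left, hfr, real_inner_comm (α f) (vel α D e), sq,
        real_inner_comm (vel α D e) (α f)]
    have e2 : ⟪vel α D e, vel α D e⟫ = ∑ f, D e f * ⟪vel α D e, α f⟫ := by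
      rw [inner_vel]
      exact Finset.sum_congr rfl fun g _ => by rw [real_inner_comm]
    rw [← e1, e2]
  have h2 : ∑ e, ∑ f, D e f * ⟪vel α D e, α f⟫ = ∑ e, ∑ f, D e f * ⟪vel α D f, α e⟫ := by
    rw [Finset.sum_comm]
    exact Finset.sum_congr rfl fun e _ => Finset.sum_congr rfl fun f _ => by rw [Dsymm]
  have h3 : ∑ e, ∑ f, D e f ^ 2 =
      ∑ e, ∑ f, D e f * ⟪vel α D e, α f⟫ + ∑ e, ∑ f, D e f * ⟪vel α D f, α e⟫ := by
    rw [← Finset.sum_add_distrib]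
    refine Finset.sum_congr rfl fun e _ => ?_
    rw [← Finset.sum_add_distrib]
    refine Finset.sum_congr rfl fun f _ => ?_
    rw [sq, ← mul_add, add_comm, ← hD e f]
  have h4 : ∑ e, ∑ f, (⟪vel α D e, α f⟫ ^ 2 - 1 / 2 * D e f ^ 2) =
      ∑ e, ∑ f, ⟪vel α D e, α f⟫ ^ 2 - 1 / 2 * ∑ e, ∑ f, D e f ^ 2 := by
    simp only [Finset.sum_sub_distrib, Finset.mul_sum]
  rw [h4, h3, Finset.sum_congr rfl fun e _ => h1 e, ← h2]
  ring

/-- the in-plane defect -/
noncomputable def defect (α : E → W) (D : E → E → ℝ) (F : Finset E) (h : E) : W :=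
  ∑ f ∈ F, ⟪vel α D f, α h⟫ • α f

lemma plane_identity (F : Finset E) (c : ℝ)
    (plane : ∀ h ∈ F, ∑ g ∈ F, ⟪α g, α h⟫ • α g = c • α h)
    (Dsymm : ∀ e f, D e f = D f e)
    (Dfull : ∀ e f, D e f = ∑ g, (⟪α e, α g⟫ * D g f + D e g * ⟪α g, α f⟫))
    (Dplane : ∀ h ∈ F, ∀ k ∈ F,
      c * D h k = ∑ g ∈ F, (⟪α h, α g⟫ * D g k + D h g * ⟪α g, α k⟫)) :
    ∑ h ∈ F, ‖defect α D F h‖ ^ 2 =
      c * ∑ h ∈ F, ∑ f ∈ F, (⟪vel α D h, α f⟫ ^ 2 - 1 / 2 * D h f ^ 2) := by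
  have hD := D_eq Dsymm Dfull
  -- (A)
  have hA : ∀ h f, f ∈ F → ∑ g ∈ F, ⟪vel α D h, α g⟫ * ⟪α g, α f⟫ = c * ⟪vel α D h, α f⟫ := by
    intro h f hf
    have := congrArg (fun x => ⟪vel α D h, x⟫) (plane f hf)
    simp only [inner_sum, real_inner_smul_right] at this
    rw [← this]
    exact Finset.sum_congr rfl fun g _ => by ring
  -- (B)
  have hB : ∑ k ∈ F, ∑ h ∈ F, ∑ g ∈ F, D h k * ⟪α h, α g⟫ * D g k =
      1 / 2 * c * ∑ h ∈ F, ∑ k ∈ F, D h k ^ 2 := by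
    have h1 : c * ∑ h ∈ F, ∑ k ∈ F, D h k ^ 2 =
        ∑ h ∈ F, ∑ k ∈ F, ∑ g ∈ F, D h k * ⟪α h, α g⟫ * D g k +
        ∑ h ∈ F, ∑ k ∈ F, ∑ g ∈ F, D h k * D h g * ⟪α g, α k⟫ := by
      rw [Finset.mul_sum, ← Finset.sum_add_distrib]
      refine Finset.sum_congr rfl fun h hh => ?_
      rw [Finset.mul_sum, ← Finset.sum_add_distrib]
      refine Finset.sum_congr rfl fun k hk => ?_
      rw [← Finset.sum_add_distrib, sq, ← mul_assoc, Dplane h hh k hk, Finset.sum_mul]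
      exact Finset.sum_congr rfl fun g _ => by ring
    have h2 : ∑ h ∈ F, ∑ k ∈ F, ∑ g ∈ F, D h k * ⟪α h, α g⟫ * D g k =
        ∑ k ∈ F, ∑ h ∈ F, ∑ g ∈ F, D h k * ⟪α h, α g⟫ * D g k := Finset.sum_comm
    have h3 : ∑ h ∈ F, ∑ k ∈ F, ∑ g ∈ F, D h k * D h g * ⟪α g, α k⟫ =
        ∑ k ∈ F, ∑ h ∈ F, ∑ g ∈ F, D h k * ⟪α h, α g⟫ * D g k := by
      refine Finset.sum_congr rfl fun h _ => Finset.sum_congr rfl fun k _ =>
        Finset.sum_congr rfl fun g _ => ?_
      rw [Dsymm h k, Dsymm h g, real_inner_comm (α k) (α g)]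
      ring
    rw [h2, h3] at h1
    linarith
  have h1 : ∀ h ∈ F, ‖defect α D F h‖ ^ 2 =
      ∑ f ∈ F, ∑ g ∈ F, D f h * ⟪α f, α g⟫ * D g h
        - 2 * c * ∑ g ∈ F, ⟪vel α D h, α g⟫ * D g h
        + c * ∑ g ∈ F, ⟪vel α D h, α g⟫ ^ 2 := by
    intro h hh
    have e0 : ‖defect α D F h‖ ^ 2 =
        ∑ f ∈ F, ∑ g ∈ F, ⟪vel α D f, α h⟫ * ⟪vel α D g, α h⟫ * ⟪α f, α g⟫ := by
      rw [← real_inner_self_eq_norm_sq, defect, sum_inner]
      refine Finset.sum_congr rfl fun f _ => ?_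
      rw [inner_sum]
      refine Finset.sum_congr rfl fun g _ => ?_
      rw [real_inner_smul_left, real_inner_smul_right]
      ring
    have e1 : ∀ f, ⟪vel α D f, α h⟫ = D f h - ⟪vel α D h, α f⟫ := by
      intro f
      have := hD f h
      linarith
    have e2 : ∑ g ∈ F, ∑ f ∈ F, ⟪vel α D h, α f⟫ * ⟪α f, α g⟫ * D g h =
        c * ∑ g ∈ F, ⟪vel α D h, α g⟫ * D g h := by
      rw [Finset.mul_sum]
      refine Finset.sum_congr rfl fun g hg => ?_
      rw [← Finset.sum_mul, hA h g hg]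
      ring
    have e3 : ∑ g ∈ F, ∑ f ∈ F, ⟪vel α D h, α f⟫ * ⟪α f, α g⟫ * ⟪vel α D h, α g⟫ =
        c * ∑ g ∈ F, ⟪vel α D h, α g⟫ ^ 2 := by
      rw [Finset.mul_sum]
      refine Finset.sum_congr rfl fun g hg => ?_
      rw [← Finset.sum_mul, hA h g hg]
      ring
    have e4 : ∑ f ∈ F, ∑ g ∈ F, D f h * ⟪α f, α g⟫ * ⟪vel α D h, α g⟫ =
        c * ∑ g ∈ F, ⟪vel α D h, α g⟫ * D g h := by
      rw [Finset.mul_sum]
      refine Finset.sum_congr rfl fun g hg => ?_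
      have := hA h g hg
      have e5 : ∑ x ∈ F, D g h * ⟪α g, α x⟫ * ⟪vel α D h, α x⟫ =
          D g h * ∑ x ∈ F, ⟪vel α D h, α x⟫ * ⟪α x, α g⟫ := by
        rw [Finset.mul_sum]
        exact Finset.sum_congr rfl fun x _ => by rw [real_inner_comm (α g) (α x)]; ring
      rw [e5, this]
      ring
    rw [e0]
    have e6 : ∑ f ∈ F, ∑ g ∈ F, ⟪vel α D f, α h⟫ * ⟪vel α D g, α h⟫ * ⟪α f, α g⟫ =
        ∑ f ∈ F, ∑ g ∈ F, D f h * ⟪α f, α g⟫ * D g h
        - ∑ f ∈ F, ∑ g ∈ F, D f h * ⟪α f, α g⟫ * ⟪vel α D h, α g⟫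
        - ∑ g ∈ F, ∑ f ∈ F, ⟪vel α D h, α f⟫ * ⟪α f, α g⟫ * D g h
        + ∑ g ∈ F, ∑ f ∈ F, ⟪vel α D h, α f⟫ * ⟪α f, α g⟫ * ⟪vel α D h, α g⟫ := by
      rw [Finset.sum_comm (s := F) (t := F)
          (f := fun g f => ⟪vel α D h, α f⟫ * ⟪α f, α g⟫ * D g h),
        Finset.sum_comm (s := F) (t := F)
          (f := fun g f => ⟪vel α D h, α f⟫ * ⟪α f, α g⟫ * ⟪vel α D h, α g⟫),
        ← Finset.sum_sub_distrib, ← Finset.sum_sub_distrib, ← Finset.sum_add_distrib]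
      refine Finset.sum_congr rfl fun f _ => ?_
      rw [← Finset.sum_sub_distrib, ← Finset.sum_sub_distrib, ← Finset.sum_add_distrib]
      refine Finset.sum_congr rfl fun g _ => ?_
      rw [e1 f, e1 g]
      ring
    rw [e6, e2, e3, e4]
    ring
  rw [Finset.sum_congr rfl h1, Finset.sum_add_distrib, Finset.sum_sub_distrib, hB,
    ← Finset.mul_sum, ← Finset.mul_sum]
  -- ∑ b D = 1/2 ∑ D²
  have h2 : ∑ h ∈ F, ∑ g ∈ F, ⟪vel α D h, α g⟫ * D g h = 1 / 2 * ∑ h ∈ F, ∑ g ∈ F, D h g ^ 2 := by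
    have h3 : ∑ h ∈ F, ∑ g ∈ F, ⟪vel α D h, α g⟫ * D g h =
        ∑ h ∈ F, ∑ g ∈ F, ⟪vel α D g, α h⟫ * D g h := by
      rw [Finset.sum_comm]
      exact Finset.sum_congr rfl fun e _ => Finset.sum_congr rfl fun f _ => by rw [Dsymm]
    have h4 : ∑ h ∈ F, ∑ g ∈ F, D h g ^ 2 =
        ∑ h ∈ F, ∑ g ∈ F, ⟪vel α D h, α g⟫ * D g h +
        ∑ h ∈ F, ∑ g ∈ F, ⟪vel α D g, α h⟫ * D g h := by
      rw [← Finset.sum_add_distrib]
      refine Finset.sum_congr rfl fun h _ => ?_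
      rw [← Finset.sum_add_distrib]
      refine Finset.sum_congr rfl fun g _ => ?_
      rw [← add_mul, add_comm, ← hD h g, Dsymm g h, sq]
    rw [← h3] at h4
    linarith
  rw [h2]
  have h5 : ∑ h ∈ F, ∑ f ∈ F, (⟪vel α D h, α f⟫ ^ 2 - 1 / 2 * D h f ^ 2) =
      ∑ h ∈ F, ∑ f ∈ F, ⟪vel α D h, α f⟫ ^ 2 - 1 / 2 * ∑ h ∈ F, ∑ f ∈ F, D h f ^ 2 := by
    simp only [Finset.sum_sub_distrib, Finset.mul_sum]
  rw [h5]
  ring

/-- each plane contributes zero -/
lemma plane_zero (indep : ∀ e f, e ≠ f → LinearIndependent ℝ ![α e, α f])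
    (frame : ∀ e, ∑ f, ⟪α f, α e⟫ • α f = α e)
    (plane : ∀ e f, e ≠ f → 3 ≤ (Ln α e f).card → ∀ h ∈ Ln α e f,
      ∑ g ∈ Ln α e f, ⟪α g, α h⟫ • α g = ν (Ln α e f) • α h)
    (Dsymm : ∀ e f, D e f = D f e)
    (Ddiag : ∀ e, D e e = 0)
    (Dord : ∀ e f, e ≠ f → (Ln α e f).card < 3 → D e f = 0)
    (Dfull : ∀ e f, D e f = ∑ g, (⟪α e, α g⟫ * D g f + D e g * ⟪α g, α f⟫))
    (Dplane : ∀ e f, e ≠ f → 3 ≤ (Ln α e f).card → ∀ h ∈ Ln α e f, ∀ k ∈ Ln α e f,
      ν (Ln α e f) * D h k = ∑ g ∈ Ln α e f, (⟪α h, α g⟫ * D g k + D h g * ⟪α g, α k⟫)) :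
    (∀ e f, e ≠ f → (Ln α e f).card < 3 → ⟪vel α D e, α f⟫ = 0) ∧
    (∀ e f, e ≠ f → 3 ≤ (Ln α e f).card → ∀ h ∈ Ln α e f, defect α D (Ln α e f) h = 0) := by
  have hD := D_eq Dsymm Dfull
  have hdiag : ∀ e, ⟪vel α D e, α e⟫ = 0 := by
    intro e
    have := hD e e
    rw [Ddiag e] at this
    linarith
  set q : E × E → ℝ := fun p => ⟪vel α D p.1, α p.2⟫ ^ 2 - 1 / 2 * D p.1 p.2 ^ 2 with hq
  have hqdiag : ∀ e, q (e, e) = 0 := by
    intro e
    simp [hq, hdiag, Ddiag]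
  -- sums over products and over off-diagonal pairs agree
  have hprod : ∀ F : Finset E, ∑ h ∈ F, ∑ f ∈ F, q (h, f) = ∑ p ∈ F.offDiag, q p := by
    intro F
    rw [← Finset.sum_product', ← Finset.diag_union_offDiag,
      Finset.sum_union (Finset.disjoint_diag_offDiag F)]
    have : ∑ p ∈ F.diag, q p = 0 := by
      refine Finset.sum_eq_zero fun p hp => ?_
      obtain ⟨_, h2⟩ := Finset.mem_diag.mp hp
      have : p = (p.1, p.1) := by ext <;> simp [h2]
      rw [this, hqdiag]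
    rw [this, zero_add]
  have htot : ∑ F ∈ planes α, ∑ p ∈ F.offDiag, q p = 0 := by
    rw [sum_flats indep q, ← hprod]
    exact total_zero frame Dsymm Dfull
  have hpos : ∀ e f, e ≠ f → 3 ≤ (Ln α e f).card → 0 < ν (Ln α e f) := by
    intro e f hef h3
    have h1 := plane e f hef h3 e (left_mem_Ln α e f)
    have h2 := congrArg (fun x => ⟪x, α e⟫) h1
    simp only [sum_inner, real_inner_smul_left] at h2
    have hne : α e ≠ 0 := by
      have := (indep e f hef).ne_zero 0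
      simpa using this
    have h4 : 0 < ⟪α e, α e⟫ := real_inner_self_pos.mpr hne
    have h5 : ⟪α e, α e⟫ * ⟪α e, α e⟫ ≤ ∑ x ∈ Ln α e f, ⟪α x, α e⟫ * ⟪α x, α e⟫ :=
      Finset.single_le_sum (f := fun x => ⟪α x, α e⟫ * ⟪α x, α e⟫)
        (fun x _ => mul_self_nonneg _) (left_mem_Ln α e f)
    rw [h2] at h5
    by_contra hcon
    push Not at hcon
    have : 0 < ⟪α e, α e⟫ * ⟪α e, α e⟫ := by positivity
    nlinarith
  have hnonneg : ∀ F ∈ planes α, 0 ≤ ∑ p ∈ F.offDiag, q p := by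
    intro F hF
    obtain ⟨⟨e, f⟩, hef, rfl⟩ := Finset.mem_image.mp hF
    have hef' : e ≠ f := (Finset.mem_offDiag.mp hef).2.2
    simp only
    by_cases h3 : 3 ≤ (Ln α e f).card
    · have h1 := plane_identity (Ln α e f) (ν (Ln α e f)) (plane e f hef' h3) Dsymm Dfull
        (Dplane e f hef' h3)
      have h2 : 0 ≤ ∑ h ∈ Ln α e f, ‖defect α D (Ln α e f) h‖ ^ 2 :=
        Finset.sum_nonneg fun _ _ => by positivity
      rw [h1] at h2
      rw [← hprod]
      exact nonneg_of_mul_nonneg_right h2 (hpos e f hef' h3)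
    · push Not at h3
      refine Finset.sum_nonneg fun p hp => ?_
      obtain ⟨hp1, hp2, hp3⟩ := Finset.mem_offDiag.mp hp
      have hL : Ln α p.1 p.2 = Ln α e f := Ln_eq indep hp1 hp2 hp3
      have : D p.1 p.2 = 0 := Dord p.1 p.2 hp3 (by rw [hL]; exact h3)
      simp only [hq, this]
      nlinarith [sq_nonneg ⟪vel α D p.1, α p.2⟫]
  have hzero := (Finset.sum_eq_zero_iff_of_nonneg hnonneg).mp htot
  have hmem : ∀ e f, e ≠ f → Ln α e f ∈ planes α := fun e f hef =>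
    Finset.mem_image.mpr ⟨(e, f), Finset.mem_offDiag.mpr ⟨Finset.mem_univ _, Finset.mem_univ _, hef⟩,
      rfl⟩
  constructor
  · intro e f hef h3
    have h1 := hzero _ (hmem e f hef)
    have h2 : ∀ p ∈ (Ln α e f).offDiag, 0 ≤ q p := by
      intro p hp
      obtain ⟨hp1, hp2, hp3⟩ := Finset.mem_offDiag.mp hp
      have hL : Ln α p.1 p.2 = Ln α e f := Ln_eq indep hp1 hp2 hp3
      have : D p.1 p.2 = 0 := Dord p.1 p.2 hp3 (by rw [hL]; exact h3)
      simp only [hq, this]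
      nlinarith [sq_nonneg ⟪vel α D p.1, α p.2⟫]
    have h4 := (Finset.sum_eq_zero_iff_of_nonneg h2).mp h1 (e, f)
      (Finset.mem_offDiag.mpr ⟨left_mem_Ln α e f, right_mem_Ln α e f, hef⟩)
    have h5 : D e f = 0 := Dord e f hef h3
    simp only [hq, h5] at h4
    have : ⟪vel α D e, α f⟫ ^ 2 = 0 := by linarith
    exact pow_eq_zero_iff (two_ne_zero) |>.mp this
  · intro e f hef h3
    have h1 := hzero _ (hmem e f hef)
    have h2 := plane_identity (Ln α e f) (ν (Ln α e f)) (plane e f hef h3) Dsymm Dfull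
        (Dplane e f hef h3)
    have h4 : ∑ h ∈ Ln α e f, ‖defect α D (Ln α e f) h‖ ^ 2 = 0 := by
      rw [h2]
      have := hprod (Ln α e f)
      simp only [hq] at this h1
      rw [this, h1, mul_zero]
    have h5 := (Finset.sum_eq_zero_iff_of_nonneg (fun _ _ => by positivity)).mp h4
    intro h hh
    have := h5 h hh
    simpa using this

/-- Four elements of the plane move inside the plane as soon as one does. -/
lemma exists_fourth (indep : ∀ e f, e ≠ f → LinearIndependent ℝ ![α e, α f])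
    (hdiag : ∀ e, ⟪vel α D e, α e⟫ = 0) {e f : E}
    (hdef : ∀ h ∈ Ln α e f, defect α D (Ln α e f) h = 0)
    {h₀ : E} (hh₀ : h₀ ∈ Ln α e f) (hmove : ∃ k ∈ Ln α e f, ⟪vel α D h₀, α k⟫ ≠ 0)
    {f₁ f₂ : E} (hf₁ : f₁ ∈ Ln α e f) (hf₂ : f₂ ∈ Ln α e f) (h1 : f₁ ≠ h₀) (h2 : f₂ ≠ h₀) :
    ∃ g ∈ Ln α e f, g ≠ h₀ ∧ g ≠ f₁ ∧ g ≠ f₂ ∧ ∃ k ∈ Ln α e f, ⟪vel α D g, α k⟫ ≠ 0 := by
  by_contra hcon
  push Not at hcon
  obtain ⟨k, hk, hk0⟩ := hmove
  -- the defect at `f₂`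
  have hd := hdef f₂ hf₂
  rw [defect] at hd
  have hzero : ⟪vel α D h₀, α f₂⟫ = 0 := by
    by_cases h12 : f₁ = f₂
    · rw [Finset.sum_eq_single h₀] at hd
      · rcases smul_eq_zero.mp hd with h | h
        · exact h
        · exact absurd h ((indep h₀ f₂ h2.symm).ne_zero 0)
      · intro g hg hg0
        by_cases hgf : g = f₂
        · rw [hgf, hdiag, zero_smul]
        · rw [hcon g hg hg0 (by rw [h12]; exact hgf) hgf f₂ hf₂, zero_smul]
      · intro h; exact absurd hh₀ h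
    · have hsub : ({h₀, f₁} : Finset E) ⊆ Ln α e f := by
        intro x hx
        simp only [Finset.mem_insert, Finset.mem_singleton] at hx
        rcases hx with rfl | rfl
        · exact hh₀
        · exact hf₁
      rw [← Finset.sum_subset hsub, Finset.sum_pair h1.symm] at hd
      · have := LinearIndependent.pair_iff.mp (indep h₀ f₁ h1.symm) _ _ hd
        exact this.1
      · intro g hg hg0
        simp only [Finset.mem_insert, Finset.mem_singleton, not_or] at hg0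
        by_cases hgf : g = f₂
        · rw [hgf, hdiag, zero_smul]
        · rw [hcon g hg hg0.1 hg0.2 hgf f₂ hf₂, zero_smul]
  -- hence `vel h₀` is orthogonal to the plane
  have hspan : α k ∈ span ℝ {α h₀, α f₂} := by
    rw [span_pair_eq (indep h₀ f₂ h2.symm) (mem_Ln.mp hh₀) (mem_Ln.mp hf₂)]
    exact mem_Ln.mp hk
  obtain ⟨a, b, hab⟩ := mem_span_pair.mp hspan
  apply hk0
  rw [← hab, inner_add_right, real_inner_smul_right, real_inner_smul_right, hdiag, hzero]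
  simp

lemma four_le (indep : ∀ e f, e ≠ f → LinearIndependent ℝ ![α e, α f])
    (hdiag : ∀ e, ⟪vel α D e, α e⟫ = 0) {e f : E} (h3 : 3 ≤ (Ln α e f).card)
    (hdef : ∀ h ∈ Ln α e f, defect α D (Ln α e f) h = 0)
    {h₀ : E} (hh₀ : h₀ ∈ Ln α e f) (hmove : ∃ k ∈ Ln α e f, ⟪vel α D h₀, α k⟫ ≠ 0)
    (X : Finset E) (hX : ∀ g ∈ Ln α e f, (∃ k ∈ Ln α e f, ⟪vel α D g, α k⟫ ≠ 0) → g ∈ X) :
    4 ≤ (X.filter (· ∈ Ln α e f)).card := by
  obtain ⟨f₁, hf₁, hne⟩ : ∃ f₁ ∈ Ln α e f, f₁ ≠ h₀ := by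
    apply Finset.exists_mem_ne
    omega
  obtain ⟨g₁, hg₁, g₁0, -, -, hm₁⟩ := exists_fourth indep hdiag hdef hh₀ hmove hf₁ hf₁ hne hne
  obtain ⟨g₂, hg₂, g₂0, g₂1, -, hm₂⟩ := exists_fourth indep hdiag hdef hh₀ hmove hg₁ hg₁ g₁0 g₁0
  obtain ⟨g₃, hg₃, g₃0, g₃1, g₃2, hm₃⟩ := exists_fourth indep hdiag hdef hh₀ hmove hg₁ hg₂ g₁0 g₂0
  have hsub : ({h₀, g₁, g₂, g₃} : Finset E) ⊆ X.filter (· ∈ Ln α e f) := by
    intro x hx
    simp only [Finset.mem_insert, Finset.mem_singleton] at hx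
    rw [Finset.mem_filter]
    rcases hx with rfl | rfl | rfl | rfl
    · exact ⟨hX _ hh₀ hmove, hh₀⟩
    · exact ⟨hX _ hg₁ hm₁, hg₁⟩
    · exact ⟨hX _ hg₂ hm₂, hg₂⟩
    · exact ⟨hX _ hg₃ hm₃, hg₃⟩
  have hcard : ({h₀, g₁, g₂, g₃} : Finset E).card = 4 := by
    rw [Finset.card_insert_of_notMem, Finset.card_insert_of_notMem, Finset.card_insert_of_notMem,
      Finset.card_singleton]
    · simp [g₃2.symm]
    · simp [g₂1.symm, g₃1.symm]
    · simp [g₁0.symm, g₂0.symm, g₃0.symm]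
  rw [← hcard]
  exact Finset.card_le_card hsub

end rigid

/-- A linear functional not vanishing at the `α e` gives an affine chart in which collinearity is
membership in the plane `Ln`. -/
lemma onLine_iff {α : E → W} (indep : ∀ e f, e ≠ f → LinearIndependent ℝ ![α e, α f])
    (φ : W →ₗ[ℝ] ℝ) (hφ : ∀ e, φ (α e) ≠ 0) {a b c : E} (hab : a ≠ b) :
    OnLine (fun e => (φ (α e))⁻¹ • α e) a b c ↔ c ∈ Ln α a b := by
  rw [mem_Ln]
  constructor
  · rintro ⟨t, ht⟩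
    simp only at ht
    have h1 : α c = φ (α c) • ((φ (α a))⁻¹ • α a + t • ((φ (α b))⁻¹ • α b - (φ (α a))⁻¹ • α a)) := by
      rw [← ht, smul_smul, mul_inv_cancel₀ (hφ c), one_smul]
    rw [h1]
    have ha : α a ∈ span ℝ {α a, α b} := subset_span (by simp)
    have hb : α b ∈ span ℝ {α a, α b} := subset_span (by simp)
    exact smul_mem _ _ (add_mem (smul_mem _ _ ha)
      (smul_mem _ _ (sub_mem (smul_mem _ _ hb) (smul_mem _ _ ha))))
  · intro h
    obtain ⟨x, y, hxy⟩ := mem_span_pair.mp h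
    have hφc : φ (α c) = x * φ (α a) + y * φ (α b) := by
      rw [← hxy, map_add, map_smul, map_smul, smul_eq_mul, smul_eq_mul]
    refine ⟨y * φ (α b) / φ (α c), ?_⟩
    simp only
    rw [← hxy, map_add, map_smul, map_smul, smul_eq_mul, smul_eq_mul, ← hφc]
    have hc := hφ c
    have ha := hφ a
    have hb := hφ b
    have hx : x * φ (α a) = φ (α c) - y * φ (α b) := by linarith
    have e1 : (φ (α c))⁻¹ • (x • α a + y • α b) =
        ((φ (α c))⁻¹ * x) • α a + ((φ (α c))⁻¹ * y) • α b := by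
      rw [smul_add, smul_smul, smul_smul]
    have e2 : (φ (α a))⁻¹ • α a +
        (y * φ (α b) / φ (α c)) • ((φ (α b))⁻¹ • α b - (φ (α a))⁻¹ • α a) =
        ((φ (α a))⁻¹ * (1 - y * φ (α b) / φ (α c))) • α a +
          (y * φ (α b) / φ (α c) * (φ (α b))⁻¹) • α b := by
      module
    rw [e1, e2]
    congr 2
    · field_simp
      linarith
    · field_simp

section final

variable {α : E → W} {ν : Finset E → ℝ} {D : E → E → ℝ}

lemma finrank_span_triple_le (x y z : W) : Module.finrank ℝ (span ℝ {x, y, z}) ≤ 3 := by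
  classical
  have h := finrank_span_finset_le_card (R := ℝ) ({x, y, z} : Finset W)
  rw [Set.finrank, Finset.coe_insert, Finset.coe_insert, Finset.coe_singleton] at h
  exact h.trans Finset.card_le_three

/-- three vectors of a three dimensional span, not in a plane, span it -/
lemma span_triple_eq {x y z u v w : W} (h : LinearIndependent ℝ ![u, v])
    (hw : w ∉ span ℝ {u, v})
    (hu : u ∈ span ℝ {x, y, z}) (hv : v ∈ span ℝ {x, y, z}) (hw' : w ∈ span ℝ {x, y, z}) :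
    span ℝ {w, u, v} = span ℝ {x, y, z} := by
  have hfd : FiniteDimensional ℝ (span ℝ ({x, y, z} : Set W)) :=
    FiniteDimensional.span_of_finite ℝ (by simp)
  apply Submodule.eq_of_le_of_finrank_le
  · rw [span_le]
    intro t ht
    simp only [Set.mem_insert_iff, Set.mem_singleton_iff] at ht
    rcases ht with rfl | rfl | rfl
    · exact hw'
    · exact hu
    · exact hv
  · have h3 : LinearIndependent ℝ (Fin.cons w ![u, v] : Fin 3 → W) := by
      rw [linearIndependent_finCons]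
      refine ⟨h, ?_⟩
      rw [Matrix.range_cons_cons_empty u v _]
      exact hw
    have h4 := finrank_span_eq_card h3
    have h5 : Set.range (Fin.cons w ![u, v] : Fin 3 → W) = {w, u, v} := by
      rw [Fin.range_cons, Matrix.range_cons_cons_empty u v _]
    rw [h5] at h4
    rw [h4]
    simpa using finrank_span_triple_le x y z

/-- **Infinitesimal rigidity.** -/
theorem rigid (indep : ∀ e f, e ≠ f → LinearIndependent ℝ ![α e, α f])
    (frame : ∀ e, ∑ f, ⟪α f, α e⟫ • α f = α e)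
    (plane : ∀ e f, e ≠ f → 3 ≤ (Ln α e f).card → ∀ h ∈ Ln α e f,
      ∑ g ∈ Ln α e f, ⟪α g, α h⟫ • α g = ν (Ln α e f) • α h)
    (ord : ∀ e f, e ≠ f → (Ln α e f).card < 3 → ⟪α e, α f⟫ = 0)
    (irr : ∀ S : Finset E, S.Nonempty → Sᶜ.Nonempty → ∃ e ∈ S, ∃ f ∈ Sᶜ, ⟪α e, α f⟫ ≠ 0)
    (dim : ∀ e f, ∃ g, α g ∉ span ℝ {α e, α f})
    (Dsymm : ∀ e f, D e f = D f e)
    (Ddiag : ∀ e, D e e = 0)
    (Dord : ∀ e f, e ≠ f → (Ln α e f).card < 3 → D e f = 0)
    (Dfull : ∀ e f, D e f = ∑ g, (⟪α e, α g⟫ * D g f + D e g * ⟪α g, α f⟫))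
    (Dplane : ∀ e f, e ≠ f → 3 ≤ (Ln α e f).card → ∀ h ∈ Ln α e f, ∀ k ∈ Ln α e f,
      ν (Ln α e f) * D h k = ∑ g ∈ Ln α e f, (⟪α h, α g⟫ * D g k + D h g * ⟪α g, α k⟫)) :
    ∀ e f, D e f = 0 := by
  have hD := D_eq Dsymm Dfull
  have hdiag : ∀ e, ⟪vel α D e, α e⟫ = 0 := by
    intro e
    have := hD e e
    rw [Ddiag e] at this
    linarith
  obtain ⟨hord, hdef⟩ := plane_zero indep frame plane Dsymm Ddiag Dord Dfull Dplane
  by_contra hcon
  push Not at hcon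
  -- a moving element
  obtain ⟨e₀, f₀, hne₀, hmov⟩ : ∃ e₀ f₀, e₀ ≠ f₀ ∧ ⟪vel α D e₀, α f₀⟫ ≠ 0 := by
    obtain ⟨e, f, hef⟩ := hcon
    have hne : e ≠ f := by
      rintro rfl
      exact hef (Ddiag e)
    by_cases h : ⟪vel α D e, α f⟫ = 0
    · refine ⟨f, e, hne.symm, ?_⟩
      intro h'
      apply hef
      rw [hD e f, h, h', add_zero]
    · exact ⟨e, f, hne, h⟩
  set F := Ln α e₀ f₀ with hF
  have hFS : F.Nonempty := ⟨e₀, left_mem_Ln α e₀ f₀⟩
  have hFc : Fᶜ.Nonempty := by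
    obtain ⟨g, hg⟩ := dim e₀ f₀
    exact ⟨g, Finset.mem_compl.mpr fun h => hg (mem_Ln.mp h)⟩
  obtain ⟨h₀, hh₀, g₀, hg₀, hhg⟩ := irr F hFS hFc
  have hg₀F : g₀ ∉ F := Finset.mem_compl.mp hg₀
  set U := span ℝ {α g₀, α e₀, α f₀} with hU
  classical
  set EU : Finset E := Finset.univ.filter (fun e => α e ∈ U) with hEU
  have memEU : ∀ e, e ∈ EU ↔ α e ∈ U := fun e => by simp [hEU]
  have hg₀U : g₀ ∈ EU := (memEU _).mpr (subset_span (by simp))
  have he₀U : e₀ ∈ EU := (memEU _).mpr (subset_span (by simp))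
  have hf₀U : f₀ ∈ EU := (memEU _).mpr (subset_span (by simp))
  have hLU : ∀ a ∈ EU, ∀ b ∈ EU, ∀ c ∈ Ln α a b, c ∈ EU := by
    intro a ha b hb c hc
    rw [memEU] at *
    have : span ℝ {α a, α b} ≤ U := by
      rw [span_le]
      intro t ht
      simp only [Set.mem_insert_iff, Set.mem_singleton_iff] at ht
      rcases ht with rfl | rfl
      · exact ha
      · exact hb
    exact this (mem_Ln.mp hc)
  have hFU : ∀ c ∈ F, c ∈ EU := hLU e₀ he₀U f₀ hf₀U
  -- moving elements of `EU`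
  set X : Finset E := EU.filter (fun e => ∃ h ∈ EU, ⟪vel α D e, α h⟫ ≠ 0) with hX
  have hXEU : ∀ e ∈ X, e ∈ EU := fun e he => (Finset.mem_filter.mp he).1
  -- (K1)
  have K1 : ∀ x ∈ X, ∀ b ∈ EU, ∀ c ∈ EU, x ≠ b → c ∉ Ln α x b →
      ⟪vel α D x, α b⟫ = 0 → ⟪vel α D x, α c⟫ = 0 → False := by
    intro x hx b hb c hc hxb hcL h1 h2
    obtain ⟨hxE, h, hh, hne⟩ := Finset.mem_filter.mp hx
    have hsp : span ℝ {α c, α x, α b} = U :=
      span_triple_eq (indep x b hxb) (fun h => hcL (mem_Ln.mpr h)) ((memEU _).mp hxE)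
        ((memEU _).mp hb) ((memEU _).mp hc)
    have hhU : α h ∈ span ℝ {α c, α x, α b} := by rw [hsp]; exact (memEU _).mp hh
    apply hne
    have hle : span ℝ {α c, α x, α b} ≤ LinearMap.ker (innerₛₗ ℝ (vel α D x)) := by
      rw [span_le]
      intro t ht
      simp only [Set.mem_insert_iff, Set.mem_singleton_iff] at ht
      simp only [SetLike.mem_coe, LinearMap.mem_ker, innerₛₗ_apply_apply]
      rcases ht with rfl | rfl | rfl
      · exact h2
      · exact hdiag x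
      · exact h1
    have := hle hhU
    simpa using this
  -- (K2)
  have K2 : ∀ x ∈ EU, ∀ c ∈ EU, x ≠ c → ⟪vel α D x, α c⟫ ≠ 0 →
      4 ≤ (X.filter (· ∈ Ln α x c)).card := by
    intro x hx c hc hxc hne
    have h3 : 3 ≤ (Ln α x c).card := by
      by_contra hlt
      push Not at hlt
      exact hne (hord x c hxc hlt)
    refine four_le indep hdiag h3 (hdef x c hxc h3) (left_mem_Ln α x c)
      ⟨c, right_mem_Ln α x c, hne⟩ X ?_
    rintro g hg ⟨k, hk, hk0⟩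
    exact Finset.mem_filter.mpr ⟨hLU x hx c hc g hg, k, hLU x hx c hc k hk, hk0⟩
  have hFcard : 4 ≤ (X.filter (· ∈ F)).card := K2 e₀ he₀U f₀ hf₀U hne₀ hmov
  have hXF : ∃ a ∈ X, ∃ b ∈ X, a ≠ b ∧ a ∈ F ∧ b ∈ F := by
    obtain ⟨a, ha, b, hb, hab⟩ := Finset.one_lt_card.mp (by omega : 1 < (X.filter (· ∈ F)).card)
    exact ⟨a, (Finset.mem_filter.mp ha).1, b, (Finset.mem_filter.mp hb).1, hab,
      (Finset.mem_filter.mp ha).2, (Finset.mem_filter.mp hb).2⟩
  obtain ⟨a₀, ha₀, b₀, hb₀, hab₀, ha₀F, hb₀F⟩ := hXF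
  -- Claim A
  have claimA : ∀ x ∈ X, x ∈ F := by
    intro x₀ hx₀
    by_contra hx₀F
    have hnz : ∀ e, α e ≠ 0 := by
      intro e
      by_cases h : e = e₀
      · rw [h]
        have := (indep e₀ f₀ hne₀).ne_zero 0
        simpa using this
      · have := (indep e e₀ h).ne_zero 0
        simpa using this
    obtain ⟨φ, hφ⟩ := Module.exists_dual_forall_apply_ne_zero (K := ℝ) α hnz
    have hline : ∀ {a b c : E}, a ≠ b →
        (OnLine (fun e => (φ (α e))⁻¹ • α e) a b c ↔ c ∈ Ln α a b) := fun hab =>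
      onLine_iff indep φ hφ hab
    have hinj : Set.InjOn (fun e => (φ (α e))⁻¹ • α e) X := by
      intro e _ f _ hef
      by_contra hne
      simp only at hef
      have h1 := LinearIndependent.pair_iff.mp (indep e f hne) ((φ (α e))⁻¹) (-(φ (α f))⁻¹)
        (by rw [neg_smul, hef, add_neg_cancel])
      exact inv_ne_zero (hφ e) h1.1
    have hfil : ∀ {a b : E}, a ≠ b → X.filter (OnLine (fun e => (φ (α e))⁻¹ • α e) a b) =
        X.filter (· ∈ Ln α a b) := by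
      intro a b hab
      exact Finset.filter_congr fun c _ => hline hab
    have hLab : Ln α a₀ b₀ = F := Ln_eq indep ha₀F hb₀F hab₀
    obtain ⟨x, hx, b, hb, c, hc, hxb, hxc, hoff, hs1, hs2⟩ :=
      kelly (fun e => (φ (α e))⁻¹ • α e) X hinj x₀ a₀ b₀ hx₀ ha₀ hb₀ hab₀
        (by rw [hline hab₀, hLab]; exact hx₀F) (by rw [hfil hab₀, hLab]; exact hFcard)
    rw [hline hxb] at hoff
    rw [hfil hxb] at hs1
    rw [hfil hxc] at hs2
    refine K1 x hx b (hXEU b hb) c (hXEU c hc) hxb hoff ?_ ?_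
    · by_contra hne
      have := K2 x (hXEU x hx) b (hXEU b hb) hxb hne
      omega
    · by_contra hne
      have := K2 x (hXEU x hx) c (hXEU c hc) hxc hne
      omega
  -- Claim B
  have claimB : ∀ e ∈ X, ∀ g ∈ EU, g ∉ F → ⟪vel α D e, α g⟫ = 0 := by
    intro e he g hg hgF
    by_contra hne
    have heF := claimA e he
    have heg : e ≠ g := by
      rintro rfl
      exact hgF heF
    have h4 := K2 e (hXEU e he) g hg heg hne
    have hsub : X.filter (· ∈ Ln α e g) ⊆ {e} := by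
      intro h hh
      rw [Finset.mem_singleton]
      by_contra hhe
      obtain ⟨hhX, hhL⟩ := Finset.mem_filter.mp hh
      have h1 : Ln α e h = F := Ln_eq indep heF (claimA h hhX) (Ne.symm hhe)
      have h2 : Ln α e h = Ln α e g := Ln_eq indep (left_mem_Ln α e g) hhL (Ne.symm hhe)
      exact hgF (by rw [← h1, h2]; exact right_mem_Ln α e g)
    have := Finset.card_le_card hsub
    rw [Finset.card_singleton] at this
    omega
  -- Claim C
  have claimC : ∀ g ∈ EU, g ∉ F → g = g₀ := by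
    intro g hg hgF
    by_contra hgg
    have hin : ∀ e ∈ X, g ∈ Ln α e g₀ := by
      intro e he
      by_contra hnot
      have heg : e ≠ g₀ := by
        rintro rfl
        exact hg₀F (claimA _ he)
      exact K1 e he g₀ hg₀U g hg heg hnot (claimB e he g₀ hg₀U hg₀F) (claimB e he g hg hgF)
    have h1 : Ln α g₀ g = Ln α a₀ g₀ := Ln_eq indep (right_mem_Ln α a₀ g₀) (hin a₀ ha₀) (Ne.symm hgg)
    have h2 : Ln α g₀ g = Ln α b₀ g₀ := Ln_eq indep (right_mem_Ln α b₀ g₀) (hin b₀ hb₀) (Ne.symm hgg)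
    have h3 : a₀ ∈ Ln α g₀ g := by rw [h1]; exact left_mem_Ln α a₀ g₀
    have h4 : b₀ ∈ Ln α g₀ g := by rw [h2]; exact left_mem_Ln α b₀ g₀
    have h5 : Ln α a₀ b₀ = Ln α g₀ g := Ln_eq indep h3 h4 hab₀
    have h6 : Ln α a₀ b₀ = F := Ln_eq indep ha₀F hb₀F hab₀
    exact hg₀F (by rw [← h6, h5]; exact left_mem_Ln α g₀ g)
  -- Claim D
  have hhg₀ : h₀ ≠ g₀ := by
    rintro rfl
    exact hg₀F hh₀
  have hsub : Ln α h₀ g₀ ⊆ {h₀, g₀} := by
    intro k hk
    rw [Finset.mem_insert, Finset.mem_singleton]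
    by_contra hcon
    push Not at hcon
    have hkU : k ∈ EU := hLU h₀ (hFU h₀ hh₀) g₀ hg₀U k hk
    by_cases hkF : k ∈ F
    · have h1 : Ln α h₀ k = F := Ln_eq indep hh₀ hkF (Ne.symm hcon.1)
      have h2 : Ln α h₀ k = Ln α h₀ g₀ := Ln_eq indep (left_mem_Ln α h₀ g₀) hk (Ne.symm hcon.1)
      exact hg₀F (by rw [← h1, h2]; exact right_mem_Ln α h₀ g₀)
    · exact hcon.2 (claimC k hkU hkF)
  have hcard : (Ln α h₀ g₀).card < 3 := by
    have := (Finset.card_le_card hsub).trans Finset.card_le_two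
    omega
  exact hhg (ord h₀ g₀ hhg₀ hcard)

end final

end Pool.Agent.Lib.MP_44d68a_mp
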