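import Mathlib
import Pool.Agent.Lib.MP_44d68a_mp.Core

/-!
Local uniqueness of Gram matrices.
-/

open scoped RealInnerProductSpace Topology
open Submodule Filter

namespace Pool.Agent.Lib.MP_44d68a_mp

variable {W : Type*} [NormedAddCommGroup W] [InnerProductSpace ℝ W]
variable {E : Type*} [Fintype E] [DecidableEq E]

/-- The algebraic conditions on the Gram matrix of a `∨`-system whose planes are `L e f`. -/
structure GramData (L : E → E → Finset E) (ν : Finset E → ℝ) (Γ : E → E → ℝ) : Prop where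
  symm : ∀ e f, Γ e f = Γ f e
  proj : ∀ e f, ∑ g, Γ e g * Γ g f = Γ e f
  pos : ∀ e, 0 < Γ e e
  plane : ∀ e f, e ≠ f → 3 ≤ (L e f).card → ∀ h ∈ L e f, ∀ k ∈ L e f,
    ∑ g ∈ L e f, Γ h g * Γ g k = ν (L e f) * Γ h k
  ord : ∀ e f, e ≠ f → (L e f).card < 3 → Γ e f = 0

/-- the planes of size at least three through `e` -/
noncomputable def bigPlanes (α : E → W) (e : E) : Finset (Finset E) :=
  ((Finset.univ.erase e).image (Ln α e)).filter (fun F => 3 ≤ F.card)

lemma diag_formula {α : E → W} {ν : Finset E → ℝ} {Γ : E → E → ℝ}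
    (indep : ∀ e f, e ≠ f → LinearIndependent ℝ ![α e, α f])
    (hΓ : GramData (Ln α) ν Γ) (e : E) :
    (((bigPlanes α e).card : ℝ) - 1) * Γ e e = ∑ F ∈ bigPlanes α e, ν F - 1 := by
  classical
  have h1 : ∑ f ∈ Finset.univ.erase e, Γ e f * Γ f e = Γ e e - Γ e e * Γ e e := by
    have := Finset.add_sum_erase Finset.univ (fun f => Γ e f * Γ f e) (Finset.mem_univ e)
    rw [hΓ.proj e e] at this
    linarith
  have h2 : ∑ F ∈ (Finset.univ.erase e).image (Ln α e),
      ∑ f ∈ (Finset.univ.erase e).filter (fun f => Ln α e f = F), Γ e f * Γ f e =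
      ∑ f ∈ Finset.univ.erase e, Γ e f * Γ f e :=
    Finset.sum_fiberwise_of_maps_to (fun p hp => Finset.mem_image_of_mem _ hp) _
  have h3 : ∀ F ∈ (Finset.univ.erase e).image (Ln α e),
      ∑ f ∈ (Finset.univ.erase e).filter (fun f => Ln α e f = F), Γ e f * Γ f e =
      if 3 ≤ F.card then ν F * Γ e e - Γ e e * Γ e e else 0 := by
    intro F hF
    obtain ⟨f₀, hf₀, rfl⟩ := Finset.mem_image.mp hF
    have hef₀ : e ≠ f₀ := (Finset.ne_of_mem_erase hf₀).symm
    have hset : (Finset.univ.erase e).filter (fun f => Ln α e f = Ln α e f₀) =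
        (Ln α e f₀).erase e := by
      ext f
      simp only [Finset.mem_filter, Finset.mem_erase, Finset.mem_univ, and_true]
      constructor
      · rintro ⟨hne, heq⟩
        exact ⟨hne, by rw [← heq]; exact right_mem_Ln α e f⟩
      · rintro ⟨hne, hf⟩
        exact ⟨hne, Ln_eq indep (left_mem_Ln α e f₀) hf (Ne.symm hne)⟩
    rw [hset]
    split_ifs with hc
    · have h4 := hΓ.plane e f₀ hef₀ hc e (left_mem_Ln α e f₀) e (left_mem_Ln α e f₀)
      have h5 := Finset.add_sum_erase (Ln α e f₀) (fun f => Γ e f * Γ f e) (left_mem_Ln α e f₀)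
      rw [h4] at h5
      linarith
    · push Not at hc
      refine Finset.sum_eq_zero fun f hf => ?_
      obtain ⟨hne, hfL⟩ := Finset.mem_erase.mp hf
      have hL : Ln α e f = Ln α e f₀ := Ln_eq indep (left_mem_Ln α e f₀) hfL (Ne.symm hne)
      rw [hΓ.ord e f (Ne.symm hne) (by rw [hL]; exact hc), zero_mul]
  rw [← h2, Finset.sum_congr rfl h3, ← Finset.sum_filter] at h1
  change ∑ F ∈ bigPlanes α e, (ν F * Γ e e - Γ e e * Γ e e) = _ at h1
  rw [Finset.sum_sub_distrib, ← Finset.sum_mul, Finset.sum_const, nsmul_eq_mul] at h1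
  have hp := (hΓ.pos e).ne'
  have h6 : Γ e e * ((((bigPlanes α e).card : ℝ) - 1) * Γ e e - (∑ F ∈ bigPlanes α e, ν F - 1)) = 0
      := by linear_combination -h1
  rcases mul_eq_zero.mp h6 with h7 | h7
  · exact absurd h7 hp
  · linarith

lemma card_bigPlanes_ne_one {α : E → W} {ν : Finset E → ℝ} {Γ : E → E → ℝ}
    (indep : ∀ e f, e ≠ f → LinearIndependent ℝ ![α e, α f])
    (hΓ : GramData (Ln α) ν Γ)
    (irr : ∀ S : Finset E, S.Nonempty → Sᶜ.Nonempty → ∃ e ∈ S, ∃ f ∈ Sᶜ, Γ e f ≠ 0)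
    (dim : ∀ e f, ∃ g, α g ∉ span ℝ {α e, α f}) (e : E) : (bigPlanes α e).card ≠ 1 := by
  intro h1
  have h2 := diag_formula indep hΓ e
  rw [h1] at h2
  obtain ⟨F, hF⟩ := Finset.card_eq_one.mp h1
  rw [hF, Finset.sum_singleton] at h2
  have hν : ν F = 1 := by
    push_cast at h2
    linarith
  have hFm : F ∈ bigPlanes α e := by rw [hF]; exact Finset.mem_singleton_self F
  obtain ⟨hF1, hF3⟩ := Finset.mem_filter.mp hFm
  obtain ⟨f, hf, rfl⟩ := Finset.mem_image.mp hF1
  have hef : e ≠ f := (Finset.ne_of_mem_erase hf).symm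
  obtain ⟨g, hg⟩ := dim e f
  obtain ⟨h, hh, k, hk, hne⟩ := irr (Ln α e f) ⟨e, left_mem_Ln α e f⟩
    ⟨g, Finset.mem_compl.mpr fun h => hg (mem_Ln.mp h)⟩
  have h3 := hΓ.plane e f hef hF3 h hh h hh
  rw [hν, one_mul, ← hΓ.proj h h, ← Finset.sum_add_sum_compl (Ln α e f)] at h3
  have h4 : ∑ i ∈ (Ln α e f)ᶜ, Γ h i * Γ i h = 0 := by linarith
  have h5 : ∀ i ∈ (Ln α e f)ᶜ, 0 ≤ Γ h i * Γ i h := fun i _ => by
    rw [hΓ.symm i h]; exact mul_self_nonneg _
  have h6 := (Finset.sum_eq_zero_iff_of_nonneg h5).mp h4 k hk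
  rw [hΓ.symm k h] at h6
  exact hne (mul_self_eq_zero.mp h6)

/-- The conditions isolate the Gram matrix. -/
theorem gram_isolated {α : E → W} {ν : Finset E → ℝ}
    (indep : ∀ e f, e ≠ f → LinearIndependent ℝ ![α e, α f])
    (frame : ∀ e, ∑ f, ⟪α f, α e⟫ • α f = α e)
    (plane : ∀ e f, e ≠ f → 3 ≤ (Ln α e f).card → ∀ h ∈ Ln α e f,
      ∑ g ∈ Ln α e f, ⟪α g, α h⟫ • α g = ν (Ln α e f) • α h)
    (irr : ∀ S : Finset E, S.Nonempty → Sᶜ.Nonempty → ∃ e ∈ S, ∃ f ∈ Sᶜ, ⟪α e, α f⟫ ≠ 0)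
    (dim : ∀ e f, ∃ g, α g ∉ span ℝ {α e, α f})
    (hΓ : GramData (Ln α) ν (fun e f => ⟪α e, α f⟫)) :
    ∀ᶠ Γ' in 𝓝 (fun e f => ⟪α e, α f⟫ : E → E → ℝ),
      GramData (Ln α) ν Γ' → Γ' = fun e f => ⟪α e, α f⟫ := by
  by_contra hcon
  rw [not_eventually] at hcon
  obtain ⟨u, hu, hu'⟩ := exists_seq_forall_of_frequently hcon
  push Not at hu'
  set Γ : E → E → ℝ := fun e f => ⟪α e, α f⟫ with hΓdef
  -- normalised differences
  set n : ℕ → E → E → ℝ := fun k => ‖u k - Γ‖⁻¹ • (u k - Γ) with hn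
  have hpos : ∀ k, 0 < ‖u k - Γ‖ := fun k => norm_pos_iff.mpr (sub_ne_zero.mpr (hu' k).2)
  have hnorm : ∀ k, n k ∈ Metric.sphere (0 : E → E → ℝ) 1 := by
    intro k
    rw [mem_sphere_zero_iff_norm, hn]
    simp only
    rw [norm_smul, norm_inv, norm_norm, inv_mul_cancel₀ (hpos k).ne']
  obtain ⟨D, hDs, φ, hφ, hlim⟩ := (isCompact_sphere (0 : E → E → ℝ) 1).tendsto_subseq hnorm
  have hD1 : ‖D‖ = 1 := by simpa using hDs
  have hco : ∀ e f, Tendsto (fun k => n (φ k) e f) atTop (𝓝 (D e f)) := fun e f =>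
    tendsto_pi_nhds.mp (tendsto_pi_nhds.mp hlim e) f
  have hdiff : ∀ e f, Tendsto (fun k => (u (φ k) - Γ) e f) atTop (𝓝 0) := by
    intro e f
    have h1 : Tendsto (fun k => (u (φ k)) - Γ) atTop (𝓝 (Γ - Γ)) :=
      (hu.comp hφ.tendsto_atTop).sub_const Γ
    rw [sub_self] at h1
    exact tendsto_pi_nhds.mp (tendsto_pi_nhds.mp h1 e) f
  have hdef : ∀ k e f, u k e f = Γ e f + ‖u k - Γ‖ * n k e f := by
    intro k e f
    simp only [hn, Pi.smul_apply, Pi.sub_apply, smul_eq_mul]
    rw [← mul_assoc, mul_inv_cancel₀ (hpos k).ne', one_mul]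
    ring
  have hdef' : ∀ k e f, (u k - Γ) e f = ‖u k - Γ‖ * n k e f := by
    intro k e f
    have := hdef k e f
    simp only [Pi.sub_apply]
    linarith
  apply absurd hD1
  have hzero : ∀ e f, D e f = 0 := by
    refine rigid (ν := ν) indep frame plane (fun e f hef h => hΓ.ord e f hef h) irr dim ?_ ?_ ?_ ?_ ?_
    · intro e f
      refine tendsto_nhds_unique (hco e f) ((hco f e).congr fun k => ?_)
      have h1 := (hu' (φ k)).1.symm e f
      have h2 := hΓ.symm e f
      rw [hdef, hdef] at h1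
      have h3 : ‖u (φ k) - Γ‖ * n (φ k) e f = ‖u (φ k) - Γ‖ * n (φ k) f e := by
        have : Γ e f = Γ f e := h2
        linarith
      exact (mul_left_cancel₀ (hpos (φ k)).ne' h3).symm
    · intro e
      refine tendsto_nhds_unique (hco e e) (tendsto_const_nhds.congr fun k => ?_)
      have hm := card_bigPlanes_ne_one indep hΓ irr dim e
      have h1 := diag_formula indep hΓ e
      have h2 := diag_formula indep (hu' (φ k)).1 e
      rw [← h1] at h2
      have hm' : (((bigPlanes α e).card : ℝ) - 1) ≠ 0 := by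
        intro h
        apply hm
        have : ((bigPlanes α e).card : ℝ) = 1 := by linarith
        exact_mod_cast this
      have h3 := mul_left_cancel₀ hm' h2
      rw [hdef] at h3
      have h4 : ‖u (φ k) - Γ‖ * n (φ k) e e = 0 := by
        have : Γ e e = ⟪α e, α e⟫ := rfl
        linarith
      rcases mul_eq_zero.mp h4 with h5 | h5
      · exact absurd h5 (hpos (φ k)).ne'
      · exact h5.symm
    · intro e f hef hlt
      refine tendsto_nhds_unique (hco e f) (tendsto_const_nhds.congr fun k => ?_)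
      have h1 := (hu' (φ k)).1.ord e f hef hlt
      have h2 : Γ e f = 0 := hΓ.ord e f hef hlt
      rw [hdef, h2, zero_add] at h1
      rcases mul_eq_zero.mp h1 with h5 | h5
      · exact absurd h5 (hpos (φ k)).ne'
      · exact h5.symm
    · intro e f
      have key : ∀ k, n (φ k) e f - ∑ g, (Γ e g * n (φ k) g f + n (φ k) e g * Γ g f) =
          ∑ g, n (φ k) e g * (u (φ k) - Γ) g f := by
        intro k
        have h1 := (hu' (φ k)).1.proj e f
        have h2 : ∑ g, Γ e g * Γ g f = Γ e f := hΓ.proj e f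
        simp only [hdef] at h1
        have h3 : ‖u (φ k) - Γ‖ * (n (φ k) e f -
            ∑ g, (Γ e g * n (φ k) g f + n (φ k) e g * Γ g f)) =
            ‖u (φ k) - Γ‖ * ∑ g, n (φ k) e g * (u (φ k) - Γ) g f := by
          have e1 : ∑ g, (Γ e g + ‖u (φ k) - Γ‖ * n (φ k) e g) *
              (Γ g f + ‖u (φ k) - Γ‖ * n (φ k) g f) =
              ∑ g, Γ e g * Γ g f +
              ‖u (φ k) - Γ‖ * ∑ g, (Γ e g * n (φ k) g f + n (φ k) e g * Γ g f) +
              ‖u (φ k) - Γ‖ * ∑ g, n (φ k) e g * (u (φ k) - Γ) g f := by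
            rw [Finset.mul_sum, Finset.mul_sum, ← Finset.sum_add_distrib,
              ← Finset.sum_add_distrib]
            refine Finset.sum_congr rfl fun g _ => ?_
            rw [hdef']
            ring
          rw [e1, h2] at h1
          linarith
        exact mul_left_cancel₀ (hpos (φ k)).ne' h3
      have hL : Tendsto (fun k => n (φ k) e f -
          ∑ g, (Γ e g * n (φ k) g f + n (φ k) e g * Γ g f)) atTop
          (𝓝 (D e f - ∑ g, (Γ e g * D g f + D e g * Γ g f))) := by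
        refine (hco e f).sub (tendsto_finsetSum _ fun g _ => ?_)
        exact ((hco g f).const_mul _).add ((hco e g).mul_const _)
      have hR : Tendsto (fun k => ∑ g, n (φ k) e g * (u (φ k) - Γ) g f) atTop
          (𝓝 (∑ g : E, D e g * 0)) :=
        tendsto_finsetSum _ fun g _ => (hco e g).mul (hdiff g f)
      have := tendsto_nhds_unique (hL.congr key) hR
      simp only [mul_zero, Finset.sum_const_zero] at this
      have h8 : D e f = ∑ g, (Γ e g * D g f + D e g * Γ g f) := by linarith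
      exact h8
    · intro e f hef h3 h hh k' hk'
      have key : ∀ k, ν (Ln α e f) * n (φ k) h k' -
          ∑ g ∈ Ln α e f, (Γ h g * n (φ k) g k' + n (φ k) h g * Γ g k') =
          ∑ g ∈ Ln α e f, n (φ k) h g * (u (φ k) - Γ) g k' := by
        intro k
        have h1 := (hu' (φ k)).1.plane e f hef h3 h hh k' hk'
        have h2 : ∑ g ∈ Ln α e f, Γ h g * Γ g k' = ν (Ln α e f) * Γ h k' :=
          hΓ.plane e f hef h3 h hh k' hk'
        simp only [hdef] at h1
        have h3 : ‖u (φ k) - Γ‖ * (ν (Ln α e f) * n (φ k) h k' -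
            ∑ g ∈ Ln α e f, (Γ h g * n (φ k) g k' + n (φ k) h g * Γ g k')) =
            ‖u (φ k) - Γ‖ * ∑ g ∈ Ln α e f, n (φ k) h g * (u (φ k) - Γ) g k' := by
          have e1 : ∑ g ∈ Ln α e f, (Γ h g + ‖u (φ k) - Γ‖ * n (φ k) h g) *
              (Γ g k' + ‖u (φ k) - Γ‖ * n (φ k) g k') =
              ∑ g ∈ Ln α e f, Γ h g * Γ g k' +
              ‖u (φ k) - Γ‖ * ∑ g ∈ Ln α e f,
                (Γ h g * n (φ k) g k' + n (φ k) h g * Γ g k') +
              ‖u (φ k) - Γ‖ * ∑ g ∈ Ln α e f, n (φ k) h g * (u (φ k) - Γ) g k' := by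
            rw [Finset.mul_sum, Finset.mul_sum, ← Finset.sum_add_distrib,
              ← Finset.sum_add_distrib]
            refine Finset.sum_congr rfl fun g _ => ?_
            rw [hdef']
            ring
          rw [e1, h2] at h1
          linarith
        exact mul_left_cancel₀ (hpos (φ k)).ne' h3
      have hL : Tendsto (fun k => ν (Ln α e f) * n (φ k) h k' -
          ∑ g ∈ Ln α e f, (Γ h g * n (φ k) g k' + n (φ k) h g * Γ g k')) atTop
          (𝓝 (ν (Ln α e f) * D h k' -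
            ∑ g ∈ Ln α e f, (Γ h g * D g k' + D h g * Γ g k'))) := by
        refine ((hco h k').const_mul _).sub (tendsto_finsetSum _ fun g _ => ?_)
        exact ((hco g k').const_mul _).add ((hco h g).mul_const _)
      have hR : Tendsto (fun k => ∑ g ∈ Ln α e f, n (φ k) h g * (u (φ k) - Γ) g k') atTop
          (𝓝 (∑ g ∈ Ln α e f, D h g * 0)) :=
        tendsto_finsetSum _ fun g _ => (hco h g).mul (hdiff g k')
      have := tendsto_nhds_unique (hL.congr key) hR
      simp only [mul_zero, Finset.sum_const_zero] at this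
      have h8 : ν (Ln α e f) * D h k' = ∑ g ∈ Ln α e f, (Γ h g * D g k' + D h g * Γ g k') := by
        linarith
      exact h8
  have : D = 0 := by
    funext e f
    exact hzero e f
  rw [this, norm_zero]
  norm_num

end Pool.Agent.Lib.MP_44d68a_mp
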