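import Mathlib
import Pool.Agent.Lib.MP_44d68a_mp.Defs
import Pool.Agent.Lib.MP_44d68a_mp.Gram

open Submodule Filter
open scoped Topology RealInnerProductSpace

namespace Pool.Agent.Lib.MP_44d68a_mp

variable {V : Type*} [NormedAddCommGroup V] [NormedSpace ℝ V]
variable {E : Type*} [Fintype E]

/-! ### sums over the image -/

lemma mem_img {a : E → StrongDual ℝ V} {α : StrongDual ℝ V} : α ∈ img a ↔ ∃ e, a e = α := by
  simp [img]

lemma coe_img (a : E → StrongDual ℝ V) : (img a : Set (StrongDual ℝ V)) = Set.range a := by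
  ext α
  simp [mem_img]

lemma sum_img {M : Type*} [AddCommMonoid M] {a : E → StrongDual ℝ V}
    (ha : Function.Injective a) (F : StrongDual ℝ V → M) :
    ∑ β ∈ img a, F β = ∑ e, F (a e) := by
  classical
  unfold img
  rw [Finset.sum_image]
  intro x _ y _ h
  exact ha h

open Classical in
lemma sum_img_filter {M : Type*} [AddCommMonoid M] {a : E → StrongDual ℝ V}
    (ha : Function.Injective a) (P : Submodule ℝ (StrongDual ℝ V)) (F : StrongDual ℝ V → M) :
    ∑ β ∈ img a with β ∈ P, F β = ∑ e with a e ∈ P, F (a e) := by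
  rw [Finset.sum_filter, sum_img ha, Finset.sum_filter]

/-! ### The map `G` -/

/-- `x ↦ G(x, ·)` -/
noncomputable def Gm (a : E → StrongDual ℝ V) : V →L[ℝ] StrongDual ℝ V :=
  ∑ e, (a e).smulRight (a e)

lemma Gm_apply (a : E → StrongDual ℝ V) (x : V) : Gm a x = ∑ e, a e x • a e := by
  simp [Gm, sum_apply]

lemma Gm_apply_apply (a : E → StrongDual ℝ V) (x y : V) : Gm a x y = ∑ e, a e x * a e y := by
  rw [Gm_apply, sum_apply]
  exact Finset.sum_congr rfl fun e _ => by simp

lemma canForm_img {a : E → StrongDual ℝ V} (ha : Function.Injective a) (x y : V) :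
    canForm (img a) x y = Gm a x y := by
  rw [canForm, sum_img ha (fun α => α x * α y), Gm_apply_apply]

variable [FiniteDimensional ℝ V]

lemma Gm_injective {a : E → StrongDual ℝ V} (hs : span ℝ (Set.range a) = ⊤) :
    Function.Injective (Gm a) := by
  rw [injective_iff_map_eq_zero]
  intro x hx
  have h1 : ∑ e, a e x * a e x = 0 := by
    rw [← Gm_apply_apply, hx]
    rfl
  have h2 : ∀ e, a e x = 0 := by
    intro e
    have := (Finset.sum_eq_zero_iff_of_nonneg (fun e _ => mul_self_nonneg (a e x))).mp h1 e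
      (Finset.mem_univ e)
    exact mul_self_eq_zero.mp this
  apply SeparatingDual.eq_zero_of_forall_dual_eq_zero (R := ℝ)
  intro γ
  have hγ : γ ∈ span ℝ (Set.range a) := by rw [hs]; exact mem_top
  induction hγ using Submodule.span_induction with
  | mem x hx =>
    obtain ⟨e, rfl⟩ := hx
    exact h2 e
  | zero => simp
  | add x y _ _ hx hy => simp [hx, hy]
  | smul c x _ hx => simp [hx]

lemma finrank_dual : Module.finrank ℝ (StrongDual ℝ V) = Module.finrank ℝ V := by
  have h1 : Module.finrank ℝ (V →ₗ[ℝ] ℝ) = Module.finrank ℝ (StrongDual ℝ V) :=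
    LinearEquiv.finrank_eq (LinearMap.toContinuousLinearMap (𝕜 := ℝ) (E := V) (F' := ℝ))
  rw [← h1]
  exact Subspace.dual_finrank_eq

lemma Gm_bijective {a : E → StrongDual ℝ V} (hs : span ℝ (Set.range a) = ⊤) :
    Function.Bijective (Gm a) := by
  have h1 := Gm_injective hs
  refine ⟨h1, ?_⟩
  exact (LinearMap.injective_iff_surjective_of_finrank_eq_finrank
    (f := (Gm a : V →ₗ[ℝ] StrongDual ℝ V)) finrank_dual.symm).mp h1

/-- the linear equivalence `x ↦ G(x, ·)` -/
noncomputable def Ge {a : E → StrongDual ℝ V} (hs : span ℝ (Set.range a) = ⊤) :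
    V ≃L[ℝ] StrongDual ℝ V :=
  (LinearEquiv.ofBijective (Gm a : V →ₗ[ℝ] StrongDual ℝ V) (Gm_bijective hs)).toContinuousLinearEquiv

lemma Ge_apply {a : E → StrongDual ℝ V} (hs : span ℝ (Set.range a) = ⊤) (x : V) :
    Ge hs x = Gm a x := rfl

lemma coe_Ge {a : E → StrongDual ℝ V} (hs : span ℝ (Set.range a) = ⊤) :
    (Ge hs : V →L[ℝ] StrongDual ℝ V) = Gm a := by
  ext x y
  rfl

lemma vee_eq {a : E → StrongDual ℝ V} (ha : Function.Injective a)
    (hs : span ℝ (Set.range a) = ⊤) (α : StrongDual ℝ V) :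
    vee (img a) α = (Ge hs).symm α := by
  have h1 : ∃ v, IsVee (img a) α v := by
    refine ⟨(Ge hs).symm α, fun x => ?_⟩
    rw [canForm_img ha, ← Ge_apply hs, ContinuousLinearEquiv.apply_symm_apply]
  have h2 : IsVee (img a) α (vee (img a) α) := Classical.epsilon_spec h1
  rw [ContinuousLinearEquiv.eq_symm_apply]
  ext x
  rw [Ge_apply, ← canForm_img ha]
  exact h2 x

lemma Gm_vee {a : E → StrongDual ℝ V} (ha : Function.Injective a)
    (hs : span ℝ (Set.range a) = ⊤) (α : StrongDual ℝ V) : Gm a (vee (img a) α) = α := by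
  rw [vee_eq ha hs, ← Ge_apply hs, ContinuousLinearEquiv.apply_symm_apply]

lemma vee_inverse {a : E → StrongDual ℝ V} (ha : Function.Injective a)
    (hs : span ℝ (Set.range a) = ⊤) (α : StrongDual ℝ V) :
    vee (img a) α = (Gm a).inverse α := by
  rw [vee_eq ha hs, ← coe_Ge hs, ContinuousLinearMap.inverse_equiv]
  rfl

/-- the Gram matrix of a family -/
noncomputable def gram (a : E → StrongDual ℝ V) (e f : E) : ℝ := a e (vee (img a) (a f))

lemma gram_symm {a : E → StrongDual ℝ V} (ha : Function.Injective a)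
    (hs : span ℝ (Set.range a) = ⊤) (e f : E) : gram a e f = gram a f e := by
  unfold gram
  conv_lhs => rw [← Gm_vee ha hs (a e)]
  conv_rhs => rw [← Gm_vee ha hs (a f)]
  rw [Gm_apply_apply, Gm_apply_apply]
  exact Finset.sum_congr rfl fun g _ => mul_comm _ _

lemma sum_gram_smul {a : E → StrongDual ℝ V} (ha : Function.Injective a)
    (hs : span ℝ (Set.range a) = ⊤) (e : E) : ∑ f, gram a f e • a f = a e := by
  have := Gm_vee ha hs (a e)
  rw [Gm_apply] at this
  exact this

lemma gram_proj {a : E → StrongDual ℝ V} (ha : Function.Injective a)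
    (hs : span ℝ (Set.range a) = ⊤) (e f : E) : ∑ g, gram a e g * gram a g f = gram a e f := by
  have h1 := congrArg (fun γ : StrongDual ℝ V => γ (vee (img a) (a f))) (sum_gram_smul ha hs e)
  simp only [sum_apply, smul_apply, smul_eq_mul] at h1
  rw [show gram a e f = a e (vee (img a) (a f)) from rfl, ← h1]
  exact Finset.sum_congr rfl fun g _ => by rw [gram_symm ha hs e g]; rfl

lemma gram_pos {a : E → StrongDual ℝ V} (ha : Function.Injective a)
    (hs : span ℝ (Set.range a) = ⊤) (hne : ∀ e, a e ≠ 0) (e : E) : 0 < gram a e e := by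
  rw [← gram_proj ha hs e e]
  have h0 : ∀ g, gram a e g * gram a g e = gram a g e * gram a g e := fun g => by
    rw [gram_symm ha hs e g]
  simp only [h0]
  refine Finset.sum_pos' (fun g _ => mul_self_nonneg _) ?_
  by_contra hcon
  push Not at hcon
  have h1 : ∀ g, gram a g e = 0 := by
    intro g
    have := hcon g (Finset.mem_univ g)
    exact mul_self_eq_zero.mp (le_antisymm this (mul_self_nonneg _))
  apply hne e
  rw [← sum_gram_smul ha hs e]
  exact Finset.sum_eq_zero fun g _ => by rw [h1 g, zero_smul]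

/-- coordinates on the space of the Gram matrix -/
noncomputable def coor (a : E → StrongDual ℝ V) : StrongDual ℝ V →ₗ[ℝ] EuclideanSpace ℝ E where
  toFun γ := WithLp.toLp 2 (fun f => γ (vee (img a) (a f)))
  map_add' γ γ' := by
    ext f
    simp
  map_smul' c γ := by
    ext f
    simp

lemma coor_apply (a : E → StrongDual ℝ V) (γ : StrongDual ℝ V) (f : E) :
    coor a γ f = γ (vee (img a) (a f)) := rfl

lemma coor_injective {a : E → StrongDual ℝ V} (ha : Function.Injective a)
    (hs : span ℝ (Set.range a) = ⊤) : Function.Injective (coor a) := by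
  rw [injective_iff_map_eq_zero]
  intro γ hγ
  obtain ⟨x, rfl⟩ := (Gm_bijective hs).2 γ
  have h1 : ∀ f, Gm a x (vee (img a) (a f)) = 0 := by
    intro f
    rw [← coor_apply, hγ]
    rfl
  have h2 : ∀ f, a f x = 0 := by
    intro f
    have := h1 f
    rw [Gm_apply_apply] at this
    rw [← Gm_vee ha hs (a f), Gm_apply_apply, ← this]
    exact Finset.sum_congr rfl fun g _ => mul_comm _ _
  rw [Gm_apply]
  exact Finset.sum_eq_zero fun g _ => by rw [h2 g, zero_smul]

lemma inner_coor {a : E → StrongDual ℝ V} (ha : Function.Injective a)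
    (hs : span ℝ (Set.range a) = ⊤) (e f : E) : ⟪coor a (a e), coor a (a f)⟫ = gram a e f := by
  rw [PiLp.inner_apply, ← gram_proj ha hs e f]
  refine Finset.sum_congr rfl fun g _ => ?_
  rw [gram_symm ha hs g f]
  simp only [coor_apply, gram]
  simp [mul_comm]

end Pool.Agent.Lib.MP_44d68a_mp
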