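import Mathlib
import Pool.Agent.Lib.MP_44d68a_mp.Basic

open Submodule Filter
open scoped Topology RealInnerProductSpace

namespace Pool.Agent.Lib.MP_44d68a_mp

variable {V : Type*} [NormedAddCommGroup V] [NormedSpace ℝ V]
variable {E : Type*} [Fintype E] [DecidableEq E] [FiniteDimensional ℝ V]

/-- the vectors of a labelled family in the space of its Gram matrix -/
noncomputable def vec (a : E → StrongDual ℝ V) (e : E) : EuclideanSpace ℝ E := coor a (a e)

lemma mem_Ln_vec {a : E → StrongDual ℝ V} (ha : Function.Injective a)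
    (hs : span ℝ (Set.range a) = ⊤) {e f g : E} :
    g ∈ Ln (vec a) e f ↔ a g ∈ span ℝ {a e, a f} := by
  rw [mem_Ln]
  have h1 : span ℝ {vec a e, vec a f} = Submodule.map (coor a) (span ℝ {a e, a f}) := by
    rw [Submodule.map_span, Set.image_pair]
    rfl
  rw [h1]
  constructor
  · rintro ⟨x, hx, hxe⟩
    have : x = a g := coor_injective ha hs hxe
    rwa [← this]
  · intro h
    exact ⟨a g, h, rfl⟩

lemma indep_of_noncollinear {a : E → StrongDual ℝ V} (hne : ∀ e, a e ≠ 0)
    (hnc : NoncollinearFamily a) {e f : E} (hef : e ≠ f) : LinearIndependent ℝ ![a e, a f] := by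
  rw [LinearIndependent.pair_iff]
  intro s t h
  have ht : t = 0 := by
    by_contra ht
    apply hnc e f hef (-(t⁻¹ * s))
    have h1 : a f = t⁻¹ • (t • a f) := by rw [smul_smul, inv_mul_cancel₀ ht, one_smul]
    have h2 : t • a f = -(s • a e) := by
      rw [← add_eq_zero_iff_eq_neg, add_comm]; exact h
    rw [h1, h2]
    module
  refine ⟨?_, ht⟩
  rw [ht, zero_smul, add_zero] at h
  rcases smul_eq_zero.mp h with h | h
  · exact h
  · exact absurd h (hne e)

lemma indep_vec {a : E → StrongDual ℝ V} (ha : Function.Injective a)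
    (hs : span ℝ (Set.range a) = ⊤) {e f : E} (h : LinearIndependent ℝ ![a e, a f]) :
    LinearIndependent ℝ ![vec a e, vec a f] := by
  rw [LinearIndependent.pair_iff] at h ⊢
  intro s t hst
  apply h
  apply coor_injective ha hs
  rw [map_add, map_smul, map_smul, map_zero]
  exact hst

lemma span_image_Ln {a : E → StrongDual ℝ V} (ha : Function.Injective a)
    (hs : span ℝ (Set.range a) = ⊤) (e f : E) :
    span ℝ (a '' (Ln (vec a) e f : Set E)) = span ℝ {a e, a f} := by
  apply le_antisymm
  · rw [span_le]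
    rintro _ ⟨g, hg, rfl⟩
    exact (mem_Ln_vec ha hs).mp (Finset.mem_coe.mp hg)
  · apply span_mono
    intro x hx
    simp only [Set.mem_insert_iff, Set.mem_singleton_iff] at hx
    rcases hx with rfl | rfl
    · exact ⟨e, Finset.mem_coe.mpr (left_mem_Ln _ e f), rfl⟩
    · exact ⟨f, Finset.mem_coe.mpr (right_mem_Ln _ e f), rfl⟩

lemma finrank_span_pair' {W : Type*} [AddCommGroup W] [Module ℝ W] {x y : W}
    (h : LinearIndependent ℝ ![x, y]) : Module.finrank ℝ (span ℝ {x, y}) = 2 := by
  have := finrank_span_eq_card h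
  rwa [Matrix.range_cons_cons_empty x y _] at this

lemma isTwoFlat_Ln {a : E → StrongDual ℝ V} (ha : Function.Injective a)
    (hs : span ℝ (Set.range a) = ⊤) {e f : E} (h : LinearIndependent ℝ ![a e, a f]) :
    IsTwoFlat a (Ln (vec a) e f) := by
  refine ⟨?_, fun g hg => ?_⟩
  · rw [span_image_Ln ha hs, finrank_span_pair' h]
  · rw [span_image_Ln ha hs] at hg
    exact (mem_Ln_vec ha hs).mpr hg

open Classical in
lemma veeEq_iff {a : E → StrongDual ℝ V} (ha : Function.Injective a)
    (P : Submodule ℝ (StrongDual ℝ V)) (e : E) (c : ℝ) :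
    VeeEq (img a) P (a e) c ↔
      ∑ f with a f ∈ P, gram a f e • vee (img a) (a f) = c • vee (img a) (a e) := by
  unfold VeeEq
  rw [sum_img_filter ha P (fun β => β (vee (img a) (a e)) • vee (img a) β)]
  rfl

lemma filter_span_Ln {a : E → StrongDual ℝ V} (ha : Function.Injective a)
    (hs : span ℝ (Set.range a) = ⊤) (e f : E)
    [DecidablePred fun g => a g ∈ span ℝ (a '' (Ln (vec a) e f : Set E))] :
    Finset.univ.filter (fun g => a g ∈ span ℝ (a '' (Ln (vec a) e f : Set E))) =
      Ln (vec a) e f := by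
  ext g
  rw [Finset.mem_filter, span_image_Ln ha hs, mem_Ln_vec ha hs]
  simp

lemma veeEq_Ln_iff {a : E → StrongDual ℝ V} (ha : Function.Injective a)
    (hs : span ℝ (Set.range a) = ⊤) (e f h : E) (c : ℝ) :
    VeeEq (img a) (span ℝ (a '' (Ln (vec a) e f : Set E))) (a h) c ↔
      ∑ g ∈ Ln (vec a) e f, gram a g h • a g = c • a h := by
  classical
  rw [veeEq_iff ha, filter_span_Ln ha hs]
  rw [← (Gm_injective hs).eq_iff]
  rw [map_sum, map_smul, Gm_vee ha hs]
  simp only [map_smul, Gm_vee ha hs]

/-- the numbers `ν` -/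
noncomputable def nuL (a : E → StrongDual ℝ V) (F : Finset E) : ℝ :=
  nu (img a) (span ℝ (a '' (F : Set E)))

lemma gram_add_smul {a : E → StrongDual ℝ V} (ha : Function.Injective a)
    (hs : span ℝ (Set.range a) = ⊤) {h l k : E} {x y : ℝ} (hk : x • a h + y • a l = a k) (g : E) :
    gram a g k = x * gram a g h + y * gram a g l := by
  have h1 : gram a k g = x * gram a h g + y * gram a l g := by
    unfold gram
    rw [← hk]
    simp
  rw [gram_symm ha hs g k, gram_symm ha hs g h, gram_symm ha hs g l, h1]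

lemma veeEq_nuL {a : E → StrongDual ℝ V} (hl : IsLabelled a)
    (hs : span ℝ (Set.range a) = ⊤) (hi : ∀ e f, e ≠ f → LinearIndependent ℝ ![a e, a f])
    {e f : E} (hef : e ≠ f) (h3 : 3 ≤ (Ln (vec a) e f).card) {h : E} (hh : h ∈ Ln (vec a) e f) :
    ∑ g ∈ Ln (vec a) e f, gram a g h • a g = nuL a (Ln (vec a) e f) • a h := by
  have ha := hl.inj
  set F := Ln (vec a) e f with hF
  have hP : Module.finrank ℝ (span ℝ (a '' (F : Set E))) = 2 :=
    (isTwoFlat_Ln ha hs (hi e f hef)).1
  have hmemP : ∀ k ∈ F, a k ∈ span ℝ (a '' (F : Set E)) := fun k hk =>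
    subset_span ⟨k, Finset.mem_coe.mpr hk, rfl⟩
  have hex : ∀ k ∈ F, ∃ c : ℝ, ∑ g ∈ F, gram a g k • a g = c • a k := by
    intro k hk
    obtain ⟨c, hc⟩ := hl.sys.exists_nu (a k) (mem_img.mpr ⟨k, rfl⟩) _ hP (hmemP k hk)
    exact ⟨c, (veeEq_Ln_iff ha hs e f k c).mp hc⟩
  choose! c hc using hex
  -- all the constants agree
  have hsame : ∀ k ∈ F, ∀ l ∈ F, k ≠ l → c k = c l := by
    intro k hk l hl' hkl
    obtain ⟨m, hm, hmk, hml⟩ : ∃ m ∈ F, m ≠ k ∧ m ≠ l := by
      by_contra hcon
      push Not at hcon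
      have hsub : F ⊆ {k, l} := by
        intro m hm
        rw [Finset.mem_insert, Finset.mem_singleton]
        by_cases h : m = k
        · left; exact h
        · right; exact hcon m hm h
      have := (Finset.card_le_card hsub).trans Finset.card_le_two
      omega
    have hkl' : a m ∈ span ℝ {a k, a l} := by
      have hL : Ln (vec a) k l = F := Ln_eq (fun e f hef => indep_vec ha hs (hi e f hef)) hk hl' hkl
      exact (mem_Ln_vec ha hs).mp (by rw [hL]; exact hm)
    obtain ⟨x, y, hxy⟩ := mem_span_pair.mp hkl'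
    have hx : x ≠ 0 := by
      rintro rfl
      have h1 := LinearIndependent.pair_iff.mp (hi m l hml) 1 (-y)
        (by rw [← hxy]; module)
      exact one_ne_zero h1.1
    have hy : y ≠ 0 := by
      rintro rfl
      have h1 := LinearIndependent.pair_iff.mp (hi m k hmk) 1 (-x)
        (by rw [← hxy]; module)
      exact one_ne_zero h1.1
    have hM : ∑ g ∈ F, gram a g m • a g =
        x • ∑ g ∈ F, gram a g k • a g + y • ∑ g ∈ F, gram a g l • a g := by
      rw [Finset.smul_sum, Finset.smul_sum, ← Finset.sum_add_distrib]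
      refine Finset.sum_congr rfl fun g _ => ?_
      rw [gram_add_smul ha hs hxy g, add_smul, mul_smul, mul_smul]
    rw [hc m hm, hc k hk, hc l hl', ← hxy] at hM
    have h2 := LinearIndependent.pair_iff.mp (hi k l hkl) (c m * x - x * c k) (c m * y - y * c l)
      (by
        have : (c m * x - x * c k) • a k + (c m * y - y * c l) • a l =
          c m • (x • a k + y • a l) - (x • c k • a k + y • c l • a l) := by module
        rw [this, hM, sub_self])
    have e1 : c m = c k := by
      have : x * (c m - c k) = 0 := by linarith [h2.1]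
      rcases mul_eq_zero.mp this with h | h
      · exact absurd h hx
      · linarith
    have e2 : c m = c l := by
      have : y * (c m - c l) = 0 := by linarith [h2.2]
      rcases mul_eq_zero.mp this with h | h
      · exact absurd h hy
      · linarith
    rw [← e1, e2]
  have hcommon : ∀ k ∈ F, c k = c e := by
    intro k hk
    by_cases h : k = e
    · rw [h]
    · exact hsame k hk e (left_mem_Ln _ e f) h
  have hex2 : ∃ ν : ℝ, ∀ α ∈ img a, α ∈ span ℝ (a '' (F : Set E)) →
      VeeEq (img a) (span ℝ (a '' (F : Set E))) α ν := by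
    refine ⟨c e, fun α hα hαP => ?_⟩
    obtain ⟨k, rfl⟩ := mem_img.mp hα
    have hk : k ∈ F := (isTwoFlat_Ln ha hs (hi e f hef)).2 k hαP
    rw [hF, veeEq_Ln_iff ha hs, ← hF, hc k hk, hcommon k hk]
  have h4 := Classical.epsilon_spec hex2
  have h5 := h4 (a h) (mem_img.mpr ⟨h, rfl⟩) (hmemP h hh)
  have h6 := (veeEq_Ln_iff ha hs e f h _).mp h5
  exact h6

lemma gramData_of_labelled {a : E → StrongDual ℝ V} (hl : IsLabelled a)
    (hs : span ℝ (Set.range a) = ⊤) (hne : ∀ e, a e ≠ 0)
    (hi : ∀ e f, e ≠ f → LinearIndependent ℝ ![a e, a f]) :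
    GramData (Ln (vec a)) (nuL a) (gram a) := by
  have ha := hl.inj
  refine ⟨gram_symm ha hs, gram_proj ha hs, gram_pos ha hs hne, ?_, ?_⟩
  · intro e f hef h3 h hh k hk
    have h1 := congrArg (fun γ : StrongDual ℝ V => γ (vee (img a) (a k)))
      (veeEq_nuL hl hs hi hef h3 hh)
    simp only [sum_apply, smul_apply, smul_eq_mul] at h1
    rw [show gram a h k = a h (vee (img a) (a k)) from rfl, ← h1]
    exact Finset.sum_congr rfl fun g _ => by rw [gram_symm ha hs h g]; rfl
  · intro e f hef hlt
    have hP : Module.finrank ℝ (span ℝ (a '' (Ln (vec a) e f : Set E))) = 2 :=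
      (isTwoFlat_Ln ha hs (hi e f hef)).1
    obtain ⟨c, hc⟩ := hl.sys.exists_nu (a e) (mem_img.mpr ⟨e, rfl⟩) _ hP
      (subset_span ⟨e, Finset.mem_coe.mpr (left_mem_Ln _ e f), rfl⟩)
    have h1 := (veeEq_Ln_iff ha hs e f e c).mp hc
    have hsub : ({e, f} : Finset E) ⊆ Ln (vec a) e f := by
      intro x hx
      rw [Finset.mem_insert, Finset.mem_singleton] at hx
      rcases hx with rfl | rfl
      · exact left_mem_Ln _ _ _
      · exact right_mem_Ln _ _ _
    have heq : Ln (vec a) e f = {e, f} := by
      symm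
      apply Finset.eq_of_subset_of_card_le hsub
      rw [Finset.card_pair hef]
      omega
    rw [heq, Finset.sum_pair hef] at h1
    have h2 := LinearIndependent.pair_iff.mp (hi e f hef) (gram a e e - c) (gram a f e)
      (by
        have : (gram a e e - c) • a e + gram a f e • a f =
          gram a e e • a e + gram a f e • a f - c • a e := by module
        rw [this, h1, sub_self])
    rw [gram_symm ha hs]
    exact h2.2

end Pool.Agent.Lib.MP_44d68a_mp
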