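import Mathlib
import Pool.Agent.Lib.MP_44d68a_mp.Translate

open Submodule Filter
open scoped Topology RealInnerProductSpace

namespace Pool.Agent.Lib.MP_44d68a_mp

variable {V : Type*} [NormedAddCommGroup V] [NormedSpace ℝ V]
variable {E : Type*} [Fintype E] [DecidableEq E] [FiniteDimensional ℝ V]

omit [DecidableEq E] [FiniteDimensional ℝ V] in
lemma IsLabelled.span {a : E → StrongDual ℝ V} (h : IsLabelled a) :
    Submodule.span ℝ (Set.range a) = ⊤ := by
  rw [← coe_img]
  exact h.sys.span_eq_top

omit [DecidableEq E] [FiniteDimensional ℝ V] in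
lemma IsLabelled.ne_zero {a : E → StrongDual ℝ V} (h : IsLabelled a) (e : E) : a e ≠ 0 :=
  h.sys.ne_zero _ (mem_img.mpr ⟨e, rfl⟩)

omit [Fintype E] [DecidableEq E] [FiniteDimensional ℝ V] in
lemma sameMatroid_indep {a b : E → StrongDual ℝ V} (h : SameMatroid a b) {e f : E} (hef : e ≠ f)
    (hi : LinearIndependent ℝ ![a e, a f]) : LinearIndependent ℝ ![b e, b f] := by
  have h1 := h {e, f}
  rw [LinearIndepOn.pair_iff a hef, LinearIndepOn.pair_iff b hef] at h1
  rw [LinearIndependent.pair_iff] at hi ⊢
  exact h1.mp hi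

lemma sameMatroid_Ln {a b : E → StrongDual ℝ V} (ha : IsLabelled a) (hb : IsLabelled b)
    (h : SameMatroid a b) {e f : E} (hef : e ≠ f) (hi : LinearIndependent ℝ ![a e, a f]) :
    Ln (vec b) e f = Ln (vec a) e f := by
  ext g
  rw [mem_Ln_vec hb.inj hb.span, mem_Ln_vec ha.inj ha.span]
  by_cases hg : g = e ∨ g = f
  · rcases hg with rfl | rfl
    · exact iff_of_true (subset_span (by simp)) (subset_span (by simp))
    · exact iff_of_true (subset_span (by simp)) (subset_span (by simp))
  · push Not at hg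
    have hgs : g ∉ ({e, f} : Set E) := by simp [hg.1, hg.2]
    have h1 := h (insert g {e, f})
    rw [linearIndepOn_insert hgs, linearIndepOn_insert hgs, Set.image_pair, Set.image_pair] at h1
    have h2 := h {e, f}
    have hia : LinearIndepOn ℝ a {e, f} := by
      rw [LinearIndepOn.pair_iff a hef]
      rwa [LinearIndependent.pair_iff] at hi
    have hib := h2.mp hia
    tauto

lemma frame_vec {a : E → StrongDual ℝ V} (hl : IsLabelled a) (e : E) :
    ∑ f, ⟪vec a f, vec a e⟫ • vec a f = vec a e := by
  have h := congrArg (coor a) (sum_gram_smul hl.inj hl.span e)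
  rw [map_sum] at h
  simp only [map_smul] at h
  refine Eq.trans ?_ h
  refine Finset.sum_congr rfl fun f _ => ?_
  rw [show ⟪vec a f, vec a e⟫ = gram a f e from inner_coor hl.inj hl.span f e]
  rfl

lemma plane_vec {a : E → StrongDual ℝ V} (hl : IsLabelled a)
    (hi : ∀ e f, e ≠ f → LinearIndependent ℝ ![a e, a f])
    (e f : E) (hef : e ≠ f) (h3 : 3 ≤ (Ln (vec a) e f).card) (h : E) (hh : h ∈ Ln (vec a) e f) :
    ∑ g ∈ Ln (vec a) e f, ⟪vec a g, vec a h⟫ • vec a g = nuL a (Ln (vec a) e f) • vec a h := by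
  have h1 := congrArg (coor a) (veeEq_nuL hl hl.span hi hef h3 hh)
  rw [map_sum] at h1
  simp only [map_smul] at h1
  refine Eq.trans ?_ h1
  refine Finset.sum_congr rfl fun g _ => ?_
  rw [show ⟪vec a g, vec a h⟫ = gram a g h from inner_coor hl.inj hl.span g h]
  rfl

lemma irr_vec {a : E → StrongDual ℝ V} (hl : IsLabelled a) (hirr : Irreducible a)
    (S : Finset E) (hS : S.Nonempty) (hSc : Sᶜ.Nonempty) :
    ∃ e ∈ S, ∃ f ∈ Sᶜ, ⟪vec a e, vec a f⟫ ≠ 0 := by
  by_contra hcon
  push Not at hcon
  apply hirr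
  refine ⟨(S : Set E), by exact_mod_cast hS, ?_, ?_⟩
  · rw [← Finset.coe_compl]
    exact_mod_cast hSc
  · rw [eq_bot_iff]
    intro x hx
    obtain ⟨hx1, hx2⟩ := Submodule.mem_inf.mp hx
    have hort : Submodule.span ℝ (vec a '' (S : Set E)) ⟂
        Submodule.span ℝ (vec a '' ((S : Set E)ᶜ)) := by
      rw [Submodule.isOrtho_span]
      rintro _ ⟨e, he, rfl⟩ _ ⟨f, hf, rfl⟩
      exact hcon e (Finset.mem_coe.mp he) f (Finset.mem_compl.mpr fun h => hf (Finset.mem_coe.mpr h))
    have hm : ∀ T : Set E, x ∈ Submodule.span ℝ (a '' T) →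
        coor a x ∈ Submodule.span ℝ (vec a '' T) := by
      intro T hT
      have : vec a '' T = coor a '' (a '' T) := by rw [Set.image_image]; rfl
      rw [this, ← Submodule.map_span]
      exact ⟨x, hT, rfl⟩
    have h0 : coor a x = 0 := by
      have := hort.disjoint
      exact (Submodule.disjoint_def.mp this) _ (hm _ hx1) (hm _ hx2)
    rw [Submodule.mem_bot]
    apply coor_injective hl.inj hl.span
    rw [h0, map_zero]

lemma dim_vec {a : E → StrongDual ℝ V} (hl : IsLabelled a) (hdim : 3 ≤ Module.finrank ℝ V)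
    (e f : E) : ∃ g, vec a g ∉ Submodule.span ℝ {vec a e, vec a f} := by
  by_contra hcon
  push Not at hcon
  have h1 : ∀ g, a g ∈ Submodule.span ℝ {a e, a f} := fun g =>
    (mem_Ln_vec hl.inj hl.span).mp (mem_Ln.mpr (hcon g))
  have h2 : (⊤ : Submodule ℝ (StrongDual ℝ V)) ≤ Submodule.span ℝ {a e, a f} := by
    rw [← hl.span, span_le]
    rintro _ ⟨g, rfl⟩
    exact h1 g
  have h3 := Submodule.finrank_mono h2
  rw [finrank_top, finrank_dual] at h3
  have h4 : Module.finrank ℝ (Submodule.span ℝ {a e, a f}) ≤ 2 := by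
    classical
    have h5 := finrank_span_finset_le_card (R := ℝ) ({a e, a f} : Finset (StrongDual ℝ V))
    rw [Finset.coe_pair] at h5
    exact h5.trans Finset.card_le_two
  omega

/-- the Gram matrix as a function of the family -/
noncomputable def gramMap (b : E → StrongDual ℝ V) (e f : E) : ℝ := b e ((Gm b).inverse (b f))

lemma gram_eq_gramMap {b : E → StrongDual ℝ V} (hb : IsLabelled b) : gram b = gramMap b := by
  funext e f
  rw [gram, vee_inverse hb.inj hb.span]
  rfl

lemma continuous_Gm :
    Continuous (Gm : (E → StrongDual ℝ V) → (V →L[ℝ] StrongDual ℝ V)) := by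
  rw [continuous_clm_apply]
  intro x
  simp only [Gm_apply]
  refine continuous_finsetSum _ fun e _ => ?_
  have he : Continuous (fun b : E → StrongDual ℝ V => b e) := continuous_apply e
  exact (he.clm_apply continuous_const).smul he

lemma continuousAt_gramMap {a : E → StrongDual ℝ V} (hl : IsLabelled a) :
    ContinuousAt (gramMap : (E → StrongDual ℝ V) → E → E → ℝ) a := by
  have : CompleteSpace V := FiniteDimensional.complete ℝ V
  have hinv : ContinuousAt (fun b : E → StrongDual ℝ V => (Gm b).inverse) a := by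
    have h1 : ContinuousAt (ContinuousLinearMap.inverse :
        (V →L[ℝ] StrongDual ℝ V) → (StrongDual ℝ V →L[ℝ] V)) (Gm a) := by
      have := (contDiffAt_map_inverse (𝕜 := ℝ) (n := 0) (Ge hl.span)).continuousAt
      rwa [coe_Ge hl.span] at this
    exact ContinuousAt.comp (f := (Gm : (E → StrongDual ℝ V) → (V →L[ℝ] StrongDual ℝ V))) h1
      continuous_Gm.continuousAt
  refine continuousAt_pi.mpr fun e => continuousAt_pi.mpr fun f => ?_
  exact (continuous_apply e).continuousAt.clm_apply
    (hinv.clm_apply (continuous_apply f).continuousAt)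

lemma vec_eq_of_gram_eq {a b : E → StrongDual ℝ V} (h : gram b = gram a) : vec b = vec a := by
  funext e
  ext f
  exact congrFun (congrFun h e) f

lemma range_coor {a : E → StrongDual ℝ V} (hl : IsLabelled a) :
    LinearMap.range (coor a) = Submodule.span ℝ (Set.range (vec a)) := by
  rw [LinearMap.range_eq_map, ← hl.span, Submodule.map_span, ← Set.range_comp]
  rfl

lemma exists_equiv_of_gram_eq {a b : E → StrongDual ℝ V} (ha : IsLabelled a) (hb : IsLabelled b)
    (h : gram b = gram a) :
    ∃ g : StrongDual ℝ V ≃ₗ[ℝ] StrongDual ℝ V, ∀ e, b e = g (a e) := by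
  have hv := vec_eq_of_gram_eq h
  have hr : LinearMap.range (coor a) = LinearMap.range (coor b) := by
    rw [range_coor ha, range_coor hb, hv]
  refine ⟨(LinearEquiv.ofInjective (coor a) (coor_injective ha.inj ha.span)).trans
    ((LinearEquiv.ofEq _ _ hr).trans
      (LinearEquiv.ofInjective (coor b) (coor_injective hb.inj hb.span)).symm), fun e => ?_⟩
  rw [LinearEquiv.trans_apply, LinearEquiv.trans_apply, LinearEquiv.eq_symm_apply]
  apply Subtype.ext
  rw [LinearEquiv.ofInjective_apply, LinearEquiv.coe_ofEq_apply, LinearEquiv.ofInjective_apply]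
  exact congrFun hv e

theorem positive_of_three_le {a : E → StrongDual ℝ V} (hl : IsLabelled a)
    (hnc : NoncollinearFamily a) (hirr : Irreducible a) (hdim : 3 ≤ Module.finrank ℝ V) :
    LocallyDetermined a := by
  have hi : ∀ e f, e ≠ f → LinearIndependent ℝ ![a e, a f] := fun e f hef =>
    indep_of_noncollinear hl.ne_zero hnc hef
  have hgr : (fun e f => ⟪vec a e, vec a f⟫ : E → E → ℝ) = gram a := by
    funext e f
    exact inner_coor hl.inj hl.span e f
  have hiso := gram_isolated (α := vec a) (ν := nuL a)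
    (fun e f hef => indep_vec hl.inj hl.span (hi e f hef)) (frame_vec hl) (plane_vec hl hi)
    (irr_vec hl hirr) (dim_vec hl hdim)
    (by rw [hgr]; exact gramData_of_labelled hl hl.span hl.ne_zero hi)
  rw [hgr, gram_eq_gramMap hl] at hiso
  have hev := (continuousAt_gramMap hl).eventually hiso
  refine ⟨_, hev, ?_⟩
  intro b hbU hb hmat hnu
  have hib : ∀ e f, e ≠ f → LinearIndependent ℝ ![b e, b f] := fun e f hef =>
    sameMatroid_indep hmat hef (hi e f hef)
  have hLn : ∀ e f, e ≠ f → Ln (vec b) e f = Ln (vec a) e f := fun e f hef =>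
    sameMatroid_Ln hl hb hmat hef (hi e f hef)
  have hbd := gramData_of_labelled hb hb.span hb.ne_zero hib
  have hnuL : ∀ e f, e ≠ f → 3 ≤ (Ln (vec a) e f).card →
      nuL b (Ln (vec a) e f) = nuL a (Ln (vec a) e f) := fun e f hef h3 =>
    hnu _ (isTwoFlat_Ln hl.inj hl.span (hi e f hef)) h3
  have hdata : GramData (Ln (vec a)) (nuL a) (gram b) := by
    refine ⟨hbd.symm, hbd.proj, hbd.pos, ?_, ?_⟩
    · intro e f hef h3 h hh k hk
      have h1 := hbd.plane e f hef
      rw [hLn e f hef] at h1
      rw [← hnuL e f hef h3]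
      exact h1 h3 h hh k hk
    · intro e f hef hlt
      have h1 := hbd.ord e f hef
      rw [hLn e f hef] at h1
      exact h1 hlt
  have hfin : gram b = gram a := by
    rw [gram_eq_gramMap hb, gram_eq_gramMap hl]
    apply hbU
    rw [← gram_eq_gramMap hb]
    exact hdata
  exact exists_equiv_of_gram_eq hl hb hfin

theorem positive {a : E → StrongDual ℝ V} (hl : IsLabelled a)
    (hnc : NoncollinearFamily a) (hirr : Irreducible a) (hdim : Module.finrank ℝ V ≠ 2) :
    LocallyDetermined a := by
  by_cases h3 : 3 ≤ Module.finrank ℝ V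
  · exact positive_of_three_le hl hnc hirr h3
  have hle : Module.finrank ℝ V ≤ 1 := by omega
  have hsub : ∀ e f : E, e = f := by
    intro e f
    by_contra hef
    have h1 := (indep_of_noncollinear hl.ne_zero hnc hef).fintype_card_le_finrank
    rw [finrank_dual] at h1
    simp at h1
    omega
  have hone : ∀ b : E → StrongDual ℝ V, IsLabelled b → ∀ e f, gram b e f = 1 := by
    intro b hb e f
    rw [hsub f e]
    have h1 := gram_proj hb.inj hb.span e e
    have huniv : (Finset.univ : Finset E) = {e} := by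
      ext g
      simp [hsub g e]
    rw [huniv, Finset.sum_singleton] at h1
    have h2 := gram_pos hb.inj hb.span hb.ne_zero e
    have h3 : gram b e e * (gram b e e - 1) = 0 := by linarith
    rcases mul_eq_zero.mp h3 with h4 | h4
    · exact absurd h4 h2.ne'
    · linarith
  refine ⟨Set.univ, Filter.univ_mem, fun b _ hb _ _ => ?_⟩
  apply exists_equiv_of_gram_eq hl hb
  funext e f
  rw [hone b hb, hone a hl]

end Pool.Agent.Lib.MP_44d68a_mp
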