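import Mathlib
import Pool.Agent.Lib.MP_44d68a_mp.Positive

/-!
The two trivial deformations: rescaling one member in dimension two, and rescaling two collinear
members.
-/

open Submodule Filter
open scoped Topology RealInnerProductSpace

namespace Pool.Agent.Lib.MP_44d68a_mp

variable {V : Type*} [NormedAddCommGroup V] [NormedSpace ℝ V]
variable {E : Type*} [Fintype E]

/-- the rescaled family -/
noncomputable def scl (μ : E → ℝ) (a : E → StrongDual ℝ V) (e : E) : StrongDual ℝ V := μ e • a e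

omit [Fintype E] in
lemma span_scl {μ : E → ℝ} (hμ : ∀ e, μ e ≠ 0) (a : E → StrongDual ℝ V) (S : Set E) :
    span ℝ (scl μ a '' S) = span ℝ (a '' S) := by
  apply le_antisymm
  · rw [span_le]
    rintro _ ⟨e, he, rfl⟩
    exact smul_mem _ _ (subset_span ⟨e, he, rfl⟩)
  · rw [span_le]
    rintro _ ⟨e, he, rfl⟩
    have h1 : a e = (μ e)⁻¹ • scl μ a e := by
      rw [scl, smul_smul, inv_mul_cancel₀ (hμ e), one_smul]
    have h2 : (μ e)⁻¹ • scl μ a e ∈ span ℝ (scl μ a '' S) :=
      smul_mem _ _ (subset_span ⟨e, he, rfl⟩)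
    rw [← h1] at h2
    exact h2

omit [Fintype E] in
lemma mem_scl {μ : E → ℝ} (hμ : ∀ e, μ e ≠ 0) (a : E → StrongDual ℝ V) (e : E)
    (P : Submodule ℝ (StrongDual ℝ V)) : scl μ a e ∈ P ↔ a e ∈ P := by
  rw [scl, smul_mem_iff _ (hμ e)]

omit [Fintype E] in
lemma sameMatroid_scl {μ : E → ℝ} (hμ : ∀ e, μ e ≠ 0) (a : E → StrongDual ℝ V) :
    SameMatroid a (scl μ a) := by
  intro I
  have h1 := LinearIndependent.units_smul_iff (R := ℝ) (fun x : I => a x)
    (fun x : I => Units.mk0 (μ x) (hμ x))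
  exact h1.symm

omit [Fintype E] in
lemma eventually_scl [Finite E] {a : E → StrongDual ℝ V} (ha : Function.Injective a)
    {U : Set (E → StrongDual ℝ V)} (hU : U ∈ 𝓝 a) :
    ∀ᶠ μ in 𝓝 (fun _ => 1 : E → ℝ), scl μ a ∈ U ∧ Function.Injective (scl μ a) ∧ ∀ e, μ e ≠ 0 := by
  have hc : Continuous (fun μ : E → ℝ => scl μ a) :=
    continuous_pi fun e => (continuous_apply e).smul continuous_const
  have h1 : scl (fun _ => 1 : E → ℝ) a = a := by
    funext e
    simp [scl]
  have hc1 : Tendsto (fun μ : E → ℝ => scl μ a) (𝓝 (fun _ => 1 : E → ℝ)) (𝓝 a) := by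
    have := hc.tendsto (fun _ => 1 : E → ℝ)
    rwa [h1] at this
  refine (hc1.eventually hU).and (Filter.Eventually.and ?_ ?_)
  · have h2 : ∀ e f : E, ∀ᶠ μ in 𝓝 (fun _ => 1 : E → ℝ), e ≠ f → scl μ a e ≠ scl μ a f := by
      intro e f
      by_cases hef : e = f
      · exact Eventually.of_forall fun _ h => absurd hef h
      · have h3 : a e ≠ a f := fun h => hef (ha h)
        have he : Tendsto (fun μ : E → ℝ => scl μ a e) (𝓝 (fun _ => 1 : E → ℝ)) (𝓝 (a e)) :=
          tendsto_pi_nhds.mp hc1 e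
        have hf : Tendsto (fun μ : E → ℝ => scl μ a f) (𝓝 (fun _ => 1 : E → ℝ)) (𝓝 (a f)) :=
          tendsto_pi_nhds.mp hc1 f
        exact ((he.sub hf).eventually_ne (sub_ne_zero.mpr h3)).mono fun _ h _ => sub_ne_zero.mp h
    have h4 : ∀ᶠ μ in 𝓝 (fun _ => 1 : E → ℝ), ∀ e f : E, e ≠ f → scl μ a e ≠ scl μ a f :=
      eventually_all.mpr fun e => eventually_all.mpr fun f => h2 e f
    exact h4.mono fun μ hμ e f hef => by
      by_contra hne
      exact hμ e f hne hef
  · refine eventually_all.mpr fun e => ?_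
    have : Tendsto (fun μ : E → ℝ => μ e) (𝓝 (fun _ => 1 : E → ℝ)) (𝓝 1) :=
      (continuous_apply e).tendsto _
    exact this.eventually_ne one_ne_zero

variable [FiniteDimensional ℝ V]

/-- If the rescaled family has the same canonical form and the same partial sums, it is again a
`∨`-system with the same `ν`. -/
lemma veeEq_scl {a : E → StrongDual ℝ V} (hl : IsLabelled a) {μ : E → ℝ} (hμ : ∀ e, μ e ≠ 0)
    (hinj : Function.Injective (scl μ a))
    (hG : ∀ (P : Submodule ℝ (StrongDual ℝ V)) (x : V),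
      open Classical in ∑ e with a e ∈ P, (μ e * μ e * a e x) • a e =
        ∑ e with a e ∈ P, a e x • a e)
    (P : Submodule ℝ (StrongDual ℝ V)) (e : E) (c : ℝ) :
    VeeEq (img (scl μ a)) P (scl μ a e) c ↔ VeeEq (img a) P (a e) c := by
  classical
  have hs := hl.span
  have hsb : span ℝ (Set.range (scl μ a)) = ⊤ := by
    rw [← Set.image_univ, span_scl hμ, Set.image_univ, hs]
  have hGm : Gm (scl μ a) = Gm a := by
    ext x y
    have h1 := congrArg (fun γ : StrongDual ℝ V => γ y) (hG ⊤ x)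
    simp only [Submodule.mem_top, Finset.filter_true] at h1
    rw [Gm_apply, Gm_apply, ← h1]
    refine congrArg (fun γ : StrongDual ℝ V => γ y) ?_
    refine Finset.sum_congr rfl fun f _ => ?_
    simp only [scl, smul_apply, smul_eq_mul, smul_smul]
    congr 1
    ring
  have hvee : ∀ α, vee (img (scl μ a)) α = vee (img a) α := by
    intro α
    apply Gm_injective hs
    rw [Gm_vee hl.inj hs, ← hGm, Gm_vee hinj hsb]
  rw [veeEq_iff hinj, veeEq_iff hl.inj]
  rw [← (Gm_injective hs).eq_iff, ← (Gm_injective hs).eq_iff (a := ∑ f with a f ∈ P, _)]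
  simp only [map_sum, map_smul, hvee, Gm_vee hl.inj hs, mem_scl hμ]
  have h2 : ∑ f with a f ∈ P, gram (scl μ a) f e • scl μ a f =
      μ e • ∑ f with a f ∈ P, gram a f e • a f := by
    have h3 := hG P (vee (img a) (a e))
    have h4 : ∑ f with a f ∈ P, gram a f e • a f =
      ∑ f with a f ∈ P, a f (vee (img a) (a e)) • a f := rfl
    rw [h4, ← h3, Finset.smul_sum]
    refine Finset.sum_congr rfl fun f _ => ?_
    have hlin : vee (img a) (μ e • a e) = μ e • vee (img a) (a e) := by
      rw [vee_eq hl.inj hs, vee_eq hl.inj hs, map_smul]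
    rw [gram, hvee]
    simp only [scl, hlin, smul_apply, map_smul, smul_eq_mul, smul_smul]
    congr 1
    ring
  rw [h2]
  have h5 : c • scl μ a e = μ e • (c • a e) := by
    rw [scl, smul_comm]
  rw [h5]
  constructor
  · intro h
    exact smul_right_injective _ (hμ e) h
  · intro h
    rw [h]

lemma isLabelled_scl {a : E → StrongDual ℝ V} (hl : IsLabelled a) {μ : E → ℝ} (hμ : ∀ e, μ e ≠ 0)
    (hinj : Function.Injective (scl μ a))
    (hG : ∀ (P : Submodule ℝ (StrongDual ℝ V)) (x : V),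
      open Classical in ∑ e with a e ∈ P, (μ e * μ e * a e x) • a e =
        ∑ e with a e ∈ P, a e x • a e) : IsLabelled (scl μ a) := by
  refine ⟨hinj, ?_, ?_, ?_⟩
  · intro α hα
    obtain ⟨e, rfl⟩ := mem_img.mp hα
    exact smul_ne_zero (hμ e) (hl.ne_zero e)
  · rw [coe_img, ← Set.image_univ, span_scl hμ, Set.image_univ, hl.span]
  · intro α hα P hP hαP
    obtain ⟨e, rfl⟩ := mem_img.mp hα
    rw [mem_scl hμ] at hαP
    obtain ⟨c, hc⟩ := hl.sys.exists_nu (a e) (mem_img.mpr ⟨e, rfl⟩) P hP hαP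
    exact ⟨c, (veeEq_scl hl hμ hinj hG P e c).mpr hc⟩

lemma sameNu_scl {a : E → StrongDual ℝ V} (hl : IsLabelled a) {μ : E → ℝ} (hμ : ∀ e, μ e ≠ 0)
    (hinj : Function.Injective (scl μ a))
    (hG : ∀ (P : Submodule ℝ (StrongDual ℝ V)) (x : V),
      open Classical in ∑ e with a e ∈ P, (μ e * μ e * a e x) • a e =
        ∑ e with a e ∈ P, a e x • a e) : SameNu a (scl μ a) := by
  intro F _ _
  rw [span_scl hμ]
  unfold nu
  congr 1
  funext c
  apply propext
  constructor
  · intro h α hα hαP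
    obtain ⟨e, rfl⟩ := mem_img.mp hα
    rw [← veeEq_scl hl hμ hinj hG]
    exact h _ (mem_img.mpr ⟨e, rfl⟩) ((mem_scl hμ a e _).mpr hαP)
  · intro h α hα hαP
    obtain ⟨e, rfl⟩ := mem_img.mp hα
    rw [veeEq_scl hl hμ hinj hG]
    exact h _ (mem_img.mpr ⟨e, rfl⟩) ((mem_scl hμ a e _).mp hαP)

/-- Rescaling two collinear members. -/
theorem not_locallyDetermined_of_collinear {a : E → StrongDual ℝ V} (hl : IsLabelled a)
    (hnc : ¬ NoncollinearFamily a) : ¬ LocallyDetermined a := by
  classical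
  unfold NoncollinearFamily at hnc
  push Not at hnc
  obtain ⟨e₁, e₂, hne, c, hc⟩ := hnc
  have hc0 : c ≠ 0 := by
    rintro rfl
    rw [zero_smul] at hc
    exact hl.ne_zero e₂ hc
  rintro ⟨U, hU, hdet⟩
  set μ : ℝ → E → ℝ := fun θ => Function.update (Function.update (fun _ => 1) e₁
    (Real.cos θ - c * Real.sin θ)) e₂ (Real.cos θ + Real.sin θ / c) with hμdef
  have hμ1 : ∀ θ, μ θ e₁ = Real.cos θ - c * Real.sin θ := by
    intro θ
    simp [hμdef, hne]
  have hμ2 : ∀ θ, μ θ e₂ = Real.cos θ + Real.sin θ / c := by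
    intro θ
    simp [hμdef]
  have hμ3 : ∀ θ e, e ≠ e₁ → e ≠ e₂ → μ θ e = 1 := by
    intro θ e h1 h2
    simp [hμdef, h1, h2]
  have hcont : Tendsto μ (𝓝 0) (𝓝 (fun _ => 1)) := by
    rw [tendsto_pi_nhds]
    intro e
    by_cases h1 : e = e₁
    · rw [h1]
      simp only [hμ1]
      have : Continuous fun θ : ℝ => Real.cos θ - c * Real.sin θ := by fun_prop
      have h2 := this.tendsto 0
      simpa using h2
    · by_cases h2 : e = e₂
      · rw [h2]
        simp only [hμ2]
        have : Continuous fun θ : ℝ => Real.cos θ + Real.sin θ / c := by fun_prop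
        have h2 := this.tendsto 0
        simpa using h2
      · simp only [hμ3 _ e h1 h2]
        exact tendsto_const_nhds
  have hev := hcont.eventually (eventually_scl hl.inj hU)
  have hev' : ∀ᶠ θ in 𝓝[>] (0 : ℝ), (scl (μ θ) a ∈ U ∧ Function.Injective (scl (μ θ) a) ∧
      ∀ e, μ θ e ≠ 0) ∧ θ ∈ Set.Ioo 0 Real.pi :=
    (hev.filter_mono nhdsWithin_le_nhds).and (Ioo_mem_nhdsGT Real.pi_pos)
  obtain ⟨θ, ⟨hU', hinj, hμ0⟩, hθ⟩ := hev'.exists
  have hsin : 0 < Real.sin θ := Real.sin_pos_of_pos_of_lt_pi hθ.1 hθ.2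
  have hG : ∀ (P : Submodule ℝ (StrongDual ℝ V)) (x : V),
      ∑ e with a e ∈ P, (μ θ e * μ θ e * a e x) • a e = ∑ e with a e ∈ P, a e x • a e := by
    intro P x
    rw [← sub_eq_zero, ← Finset.sum_sub_distrib, Finset.sum_filter]
    have h1 : ∀ e, e ∉ ({e₁, e₂} : Finset E) →
        (if a e ∈ P then (μ θ e * μ θ e * a e x) • a e - a e x • a e else 0) = 0 := by
      intro e he
      rw [Finset.mem_insert, Finset.mem_singleton, not_or] at he
      rw [hμ3 θ e he.1 he.2]
      simp
    rw [← Finset.sum_subset (Finset.subset_univ {e₁, e₂}) (fun e _ he => h1 e he),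
      Finset.sum_pair hne]
    have hP : a e₂ ∈ P ↔ a e₁ ∈ P := by rw [hc, smul_mem_iff _ hc0]
    simp only [hP]
    split_ifs
    · rw [hμ1, hμ2, hc]
      simp only [smul_apply, smul_eq_mul]
      have hcs := Real.sin_sq_add_cos_sq θ
      have : ∀ s t : ℝ, s * s + c * c * (t * t) = 1 + c * c →
          (s * s * a e₁ x) • a e₁ - a e₁ x • a e₁ + ((t * t * (c * a e₁ x)) • c • a e₁ -
            (c * a e₁ x) • c • a e₁) = 0 := by
        intro s t hst
        have h2 : (s * s * a e₁ x) • a e₁ - a e₁ x • a e₁ + ((t * t * (c * a e₁ x)) • c • a e₁ -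
            (c * a e₁ x) • c • a e₁) =
            ((s * s + c * c * (t * t) - (1 + c * c)) * a e₁ x) • a e₁ := by module
        rw [h2, hst, sub_self, zero_mul, zero_smul]
      apply this
      field_simp
      linear_combination (1 + c ^ 2) * hcs
    · simp
  obtain ⟨g, hg⟩ := hdet (scl (μ θ) a) hU' (isLabelled_scl hl hμ0 hinj hG)
    (sameMatroid_scl hμ0 a) (sameNu_scl hl hμ0 hinj hG)
  have h1 := hg e₁
  have h2 := hg e₂
  rw [hc, map_smul, ← h1] at h2
  simp only [scl] at h2
  rw [hc, smul_comm c, hμ1, hμ2] at h2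
  have h3 : ((Real.cos θ + Real.sin θ / c) - (Real.cos θ - c * Real.sin θ)) • (c • a e₁) = 0 := by
    rw [← sub_eq_zero.mpr h2]
    module
  rcases smul_eq_zero.mp h3 with h4 | h4
  · have h5 : Real.sin θ * (c * c + 1) = 0 := by
      field_simp at h4
      linear_combination h4
    rcases mul_eq_zero.mp h5 with h6 | h6
    · exact hsin.ne' h6
    · nlinarith [mul_self_nonneg c]
  · rcases smul_eq_zero.mp h4 with h5 | h5
    · exact hc0 h5
    · exact hl.ne_zero e₁ h5

lemma nu_top {b : E → StrongDual ℝ V} (hinj : Function.Injective b)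
    (hs : span ℝ (Set.range b) = ⊤) (hne : ∀ e, b e ≠ 0) (hE : Nonempty E) :
    nu (img b) ⊤ = 1 := by
  classical
  have h1 : ∀ (e : E) (c : ℝ), VeeEq (img b) ⊤ (b e) c ↔ c = 1 := by
    intro e c
    rw [veeEq_iff hinj]
    simp only [Submodule.mem_top, Finset.filter_true]
    rw [← (Gm_injective hs).eq_iff]
    simp only [map_sum, map_smul, Gm_vee hinj hs]
    rw [sum_gram_smul hinj hs]
    constructor
    · intro h
      have h2 : (1 - c) • b e = 0 := by
        rw [← sub_eq_zero.mpr h]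
        module
      rcases smul_eq_zero.mp h2 with h3 | h3
      · linarith
      · exact absurd h3 (hne e)
    · rintro rfl
      rw [one_smul]
  have h2 : ∃ c : ℝ, ∀ α ∈ img b, α ∈ (⊤ : Submodule ℝ (StrongDual ℝ V)) → VeeEq (img b) ⊤ α c := by
    refine ⟨1, fun α hα _ => ?_⟩
    obtain ⟨e, rfl⟩ := mem_img.mp hα
    exact (h1 e 1).mpr rfl
  have h3 := Classical.epsilon_spec h2
  obtain ⟨e⟩ := hE
  exact (h1 e _).mp (h3 (b e) (mem_img.mpr ⟨e, rfl⟩) mem_top)

/-- Rescaling one member in dimension two. -/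
theorem not_locallyDetermined_of_finrank_two {a : E → StrongDual ℝ V} (hl : IsLabelled a)
    (hirr : Irreducible a) (hdim : Module.finrank ℝ V = 2) : ¬ LocallyDetermined a := by
  classical
  rintro ⟨U, hU, hdet⟩
  have hdim' : Module.finrank ℝ (StrongDual ℝ V) = 2 := by rw [finrank_dual, hdim]
  -- there is a member, and there is another one
  have hE : Nonempty E := by
    by_contra hcon
    rw [not_nonempty_iff] at hcon
    have h1 := hl.span
    rw [Set.range_eq_empty, span_empty] at h1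
    have h2 : Module.finrank ℝ (⊤ : Submodule ℝ (StrongDual ℝ V)) = 2 := by
      rw [finrank_top, hdim']
    rw [← h1, finrank_bot] at h2
    omega
  obtain ⟨e₁⟩ := hE
  have hother : ∃ e₂, e₂ ≠ e₁ := by
    by_contra hcon
    push Not at hcon
    have h1 := hl.span
    have h2 : Set.range a = {a e₁} := by
      ext α
      constructor
      · rintro ⟨e, rfl⟩
        rw [hcon e]
        rfl
      · rintro rfl
        exact ⟨e₁, rfl⟩
    rw [h2] at h1
    have h3 : Module.finrank ℝ (⊤ : Submodule ℝ (StrongDual ℝ V)) = 2 := by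
      rw [finrank_top, hdim']
    rw [← h1, finrank_span_singleton (hl.ne_zero e₁)] at h3
    omega
  have hspan : a e₁ ∈ span ℝ (a '' ({e₁}ᶜ : Set E)) := by
    by_contra hcon
    apply hirr
    refine ⟨{e₁}, Set.singleton_nonempty e₁, ?_, ?_⟩
    · obtain ⟨e₂, he₂⟩ := hother
      exact ⟨e₂, he₂⟩
    · rw [eq_bot_iff]
      intro x hx
      obtain ⟨hx1, hx2⟩ := Submodule.mem_inf.mp hx
      rw [Set.image_singleton, mem_span_singleton] at hx1
      obtain ⟨c, rfl⟩ := hx1
      by_cases hc : c = 0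
      · rw [hc, zero_smul]
        exact zero_mem _
      · rw [smul_mem_iff _ hc] at hx2
        exact absurd hx2 hcon
  set μ : ℝ → E → ℝ := fun s => Function.update (fun _ => 1) e₁ s with hμdef
  have hμ1 : ∀ s, μ s e₁ = s := by
    intro s
    simp [hμdef]
  have hμ2 : ∀ s e, e ≠ e₁ → μ s e = 1 := by
    intro s e h
    simp [hμdef, h]
  have hcont : Tendsto μ (𝓝 1) (𝓝 (fun _ => 1)) := by
    rw [tendsto_pi_nhds]
    intro e
    by_cases h1 : e = e₁
    · rw [h1]
      simp only [hμ1]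
      exact tendsto_id
    · simp only [hμ2 _ e h1]
      exact tendsto_const_nhds
  have hev := hcont.eventually (eventually_scl hl.inj hU)
  have hev' : ∀ᶠ s in 𝓝[>] (1 : ℝ), (scl (μ s) a ∈ U ∧ Function.Injective (scl (μ s) a) ∧
      ∀ e, μ s e ≠ 0) ∧ s ∈ Set.Ioi (1 : ℝ) :=
    (hev.filter_mono nhdsWithin_le_nhds).and self_mem_nhdsWithin
  obtain ⟨s, ⟨hU', hinj, hμ0⟩, hs1⟩ := hev'.exists
  have htop : ∀ b : E → StrongDual ℝ V, Function.Injective b → span ℝ (Set.range b) = ⊤ →
      (∀ e, b e ≠ 0) → IsLabelled b := by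
    intro b hbi hbs hbn
    refine ⟨hbi, ?_, ?_, ?_⟩
    · intro α hα
      obtain ⟨e, rfl⟩ := mem_img.mp hα
      exact hbn e
    · rw [coe_img, hbs]
    · intro α hα P hP _
      obtain ⟨e, rfl⟩ := mem_img.mp hα
      have hPt : P = ⊤ := by
        apply Submodule.eq_top_of_finrank_eq
        rw [hP, hdim']
      rw [hPt]
      refine ⟨1, ?_⟩
      rw [veeEq_iff hbi]
      simp only [Submodule.mem_top, Finset.filter_true]
      rw [← (Gm_injective hbs).eq_iff]
      simp only [map_sum, map_smul, Gm_vee hbi hbs]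
      rw [sum_gram_smul hbi hbs, one_smul]
  have hbs : span ℝ (Set.range (scl (μ s) a)) = ⊤ := by
    rw [← Set.image_univ, span_scl hμ0, Set.image_univ, hl.span]
  have hbn : ∀ e, scl (μ s) a e ≠ 0 := fun e => smul_ne_zero (hμ0 e) (hl.ne_zero e)
  have hnu : SameNu a (scl (μ s) a) := by
    intro F hF _
    have hFt : span ℝ (a '' (F : Set E)) = ⊤ := by
      apply Submodule.eq_top_of_finrank_eq
      rw [hF.1, hdim']
    rw [span_scl hμ0, hFt, nu_top hinj hbs hbn ⟨e₁⟩, nu_top hl.inj hl.span hl.ne_zero ⟨e₁⟩]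
  obtain ⟨g, hg⟩ := hdet (scl (μ s) a) hU' (htop _ hinj hbs hbn) (sameMatroid_scl hμ0 a) hnu
  -- `g` fixes the span of the other members
  have hfix : ∀ x ∈ span ℝ (a '' ({e₁}ᶜ : Set E)), g x = x := by
    intro x hx
    induction hx using Submodule.span_induction with
    | mem x hx =>
      obtain ⟨e, he, rfl⟩ := hx
      have h1 := hg e
      rw [scl, hμ2 s e he, one_smul] at h1
      exact h1.symm
    | zero => simp
    | add x y _ _ hx hy => rw [map_add, hx, hy]
    | smul c x _ hx => rw [map_smul, hx]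
  have h1 := hg e₁
  rw [hfix _ hspan, scl, hμ1] at h1
  have h2 : (s - 1) • a e₁ = 0 := by
    rw [← sub_eq_zero.mpr h1]
    module
  rcases smul_eq_zero.mp h2 with h3 | h3
  · have : (1 : ℝ) < s := hs1
    linarith
  · exact hl.ne_zero e₁ h3

end Pool.Agent.Lib.MP_44d68a_mp
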